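import Pool.Agent.L7h76.MT.Dir

set_option autoImplicit false

/-!
# Toroidal manifolds glued from exteriors of chain links and of knots and from other pieces

The starting results contain two kinds of gluing theorems: in `TreesOfChainLinks` all pieces are exteriors
of chain links and the gluing maps carry the complement `[-2, 2]` of the interval of slopes of one side
into the interval `(2, ∞)` or `(-∞, -2)` of the other side; in `GluedKnotExteriors` and `TreesOfPieces`
(problem MP_3d425c_gt) the pieces are exteriors of knots with Nie's property (D), the exterior of the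
Borromean rings, products of the circle and a sphere with holes, and double branched covers `Y` of
alternating diagrams with an encircled triple of strands. Here all these pieces are glued to each other.

`Tree N k x e` is a class of manifolds with one boundary torus, with fundamental group `N` and the basis
`x, e` of the fundamental group of the torus, of two kinds `k`:

* `Kind.quadrant`: the distinguished interval of slopes consists of the slopes of `x ^ p * e ^ q`,
  `p, q ≥ 0`. The members are the exteriors of knots with property (D) (`x = μ` and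
  `e = μ ^ (2g - 1) * λ`), and the blocks `K` (`IsPiece`), where to all boundary tori but one solid tori
  or members of the class of *both* kinds are glued;
* `Kind.chain`: the distinguished interval consists of the slopes of `x ^ p * e ^ q` with
  `|p| ≥ 2 |q|`. The members are the exteriors of chain links with `n` components (`x`, `e` are the
  meridian and the longitude of component `0`), where to all components but component `0` solid tori or
  members of the class of *both* kinds are glued.

`pos k x e` is one half of the set of boundary elements with a slope in the interior of the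
interval. All members are glued in such a way that every slope of the common torus is in the interior of
the distinguished interval of one of the two sides. (This is the condition of the gluing theorem of
Hanselman, Rasmussen and Watson for L-spaces, if the distinguished intervals are intervals of L-space
filling slopes; Heegaard Floer homology is not part of the Lean statement.)

The theorem: the fundamental group of a closed manifold obtained by gluing two members of the class (one
of them of kind `quadrant`), or a member of kind `quadrant` and a solid torus, or from the exterior of a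
chain link by filling all components with solid tori or members of the class (of both kinds), has no
nontrivial homomorphism to a left-orderable group. For example, one can glue exteriors of torus knots or
of the pretzel knot `P(-2, 3, 7)`, circle bundles, and exteriors of the Borromean rings to the components
of the magic link or of the minimally twisted five chain link.

The proof. In all actions of `N` on complete linear orders the elements of `pos k x e` move every
point in the same direction and their fixed points are global fixed points (`Dir`). For a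
block this makes the capped tori satisfy the condition `SCap` of the starting library, and for a chain link
the condition `CpS`, so that the induction steps of the two gluing theorems can be mixed.
-/

universe u

namespace Pool.Agent.Results.MP_9ae2f3_gt.MixedTrees

open Pool.Agent.R649.BT (Block Piece Cap SCap TameE BlockOK cap_solid symm_fix)
open Pool.Agent.TH744.Tree (Link lon Node Cp CpS cp_solid mono_aut tws set0 lon_map)
open Pool.Agent.L7h76.MT (Dir Both)
open Pool.Agent.Results.MP_9ae2f3_gt.GluedKnotExteriors (PropertyD IsPiece NoOrders noOrders)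

/-- The two kinds of manifolds with a torus boundary. -/
inductive Kind : Type
  | quadrant
  | chain

/-- The boundary elements with a slope in the interior of the distinguished interval: for
`Kind.quadrant` the elements `x ^ A * e ^ B` with `A, B ≥ 1`, for `Kind.chain` the elements
`x ^ a * e ^ b` with `a > 2 |b|` (in both cases the other half consists of their inverses). -/
def pos {N : Type} [Group N] (k : Kind) (x e : N) : Set N :=
  match k with
  | .quadrant => {g | ∃ A B : ℕ, 1 ≤ A ∧ 1 ≤ B ∧ g = x ^ A * e ^ B}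
  | .chain => {g | ∃ a b : ℤ, 2 * |b| < a ∧ g = x ^ a * e ^ b}

/-- A component of a chain link with meridian `o` and longitude `l` is filled by a solid torus with
slope `p / q`, `|p / q| ≥ 2`, of sign `σ`. -/
def Solid {G : Type u} [Group G] (σ : Bool) (o l : G) : Prop :=
  ∃ p q : ℤ, 1 ≤ q ∧ 2 * q ≤ |p| ∧ σ = decide (0 < p) ∧ o ^ p * l ^ q = 1

/-- To a component of a chain link with meridian `o` and longitude `l` a manifold with the set
`Q` of positive boundary elements is glued such that all slopes outside `(2, ∞)` (if `σ = true`),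
respectively outside `(-∞, -2)` (if `σ = false`), are in the interior of its distinguished interval:
the endpoints of this set of slopes are `o⁻¹` and `o ^ 2 * l` (respectively `o ^ 2 * l⁻¹`). -/
def Glued {G : Type u} [Group G] (Q : Set G) (σ : Bool) (o l : G) : Prop :=
  Both Q o⁻¹ (o ^ 2 * if σ then l else l⁻¹)

/-- The number of negative signs `s i` minus the number of positive clasps `c i`. -/
def twist (n : ℕ) (c s : ℕ → Bool) : ℤ :=
  ∑ i ∈ Finset.range n, ((if s i then 0 else 1) - (if c i then 1 else 0))

/-- `Tree G k x e`: the group `G` of a manifold with one boundary torus, with basis `x, e`.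

`knot`: the exterior of a knot with property (D).

`piece`: a piece `K` of the starting library (exterior of the Borromean rings, circle times sphere with
holes, double branched cover of an alternating diagram with an encircled triple of strands), with the basis
`K.x i`, `K.e i` for the torus `i`. For `i ∈ S`, `i ≠ 0`, a manifold of the class with group `N i`
is glued to the torus `i`, such that the slopes `K.x i ^ p * K.e i ^ q` with `p q ≤ 0` are in
the interior of its distinguished interval; for `i ∉ S`, `i ≠ 0`, a solid torus is glued to the torus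
`i`, with a slope `K.x i ^ p * K.e i ^ q`, `p ≥ 0`, `q ≥ 1` (`p ≥ 1` for the circle bundles).

`chain`: the chain link with the components `0, ..., n - 1` (all indices are taken modulo `n`), where
`o i`, `m i` are the meridians of the outer and the inner arc of component `i` and the clasp of the
components `i`, `i + 1` is positive if `c i = true`; `Link` are the Wirtinger relations (see the starting
result `TreesOfChainLinks` for the diagram), and `lon o m c i` is the longitude of component `i + 1`.
Component `0` stays open; for `i ∈ S`, `i + 1 < n`, a manifold of the class with group `N i` is glued to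
component `i + 1`, and for `i ∉ S` a solid torus; the sign of the slopes on component `i + 1` is
`s (i + 1)`. The number of negative signs minus the number of positive clasps is `0` or `-1`.

The group `G` may be any group generated by elements and images of the groups `N i` with these
relations, for instance the fundamental group of the glued manifold. -/
inductive Tree : (G : Type) → [Group G] → Kind → G → G → Prop
  | knot {G : Type} [Group G] {μ l : G} {n : ℤ} (h : PropertyD G μ l n) :
      Tree G .quadrant μ (μ ^ n * l)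
  | piece {G : Type} [Group G] (K : Block) (hK : IsPiece K) (j : PresentedGroup K.rel →* G)
      (N : K.Tori → Type) [∀ i, Group (N i)] (js : ∀ i, N i →* G) (k : K.Tori → Kind)
      (x e : ∀ i, N i) (S : Set K.Tori) (hS : ∀ i ∈ S, i ≠ 0 → Tree (N i) (k i) (x i) (e i))
      (glue : ∀ i ∈ S, i ≠ 0 → Both (js i '' pos (k i) (x i) (e i))
        (j (PresentedGroup.mk K.rel (K.x i))) (j (PresentedGroup.mk K.rel (K.e i)))⁻¹)
      (solid : ∀ i, i ∉ S → i ≠ 0 → ∃ p q : ℕ, 1 ≤ q ∧ ((∃ k, K = Block.seif k) → 1 ≤ p) ∧
        j (PresentedGroup.mk K.rel (K.x i)) ^ p * j (PresentedGroup.mk K.rel (K.e i)) ^ q = 1)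
      (gen : j.range ⊔ ⨆ i ∈ {i | i ∈ S ∧ i ≠ 0}, (js i).range = ⊤) :
      Tree G .quadrant (j (PresentedGroup.mk K.rel (K.x 0))) (j (PresentedGroup.mk K.rel (K.e 0)))
  | chain {G : Type} [Group G] (n : ℕ) (hn : 1 ≤ n) (o m : ℕ → G) (c s : ℕ → Bool)
      (link : Link n o m c) (per : ∀ i, s (i + n) = s i) (s0 : s 0 = true)
      (N : ℕ → Type) [∀ i, Group (N i)] (js : ∀ i, N i →* G) (k : ℕ → Kind) (x e : ∀ i, N i)
      (S : Set ℕ) (hS : ∀ i ∈ S, i + 1 < n → Tree (N i) (k i) (x i) (e i))
      (glue : ∀ i ∈ S, i + 1 < n → Glued (js i '' pos (k i) (x i) (e i)) (s (i + 1)) (o (i + 1))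
        (lon o m c i))
      (solid : ∀ i ∉ S, i + 1 < n → Solid (s (i + 1)) (o (i + 1)) (lon o m c i))
      (tw : twist n c s = 0 ∨ twist n c s = -1)
      (gen : Subgroup.closure (Set.range o ∪ Set.range m) ⊔
        ⨆ i ∈ {i | i ∈ S ∧ i + 1 < n}, (js i).range = ⊤) :
      Tree G .chain (o 0) (lon o m c (n - 1))

section proof

/-- The invariant of the induction. -/
def Inv (k : Kind) (G : Type) [Group G] (x e : G) : Prop :=
  match k with
  | .quadrant => Commute x e ∧ Piece.{u} G x (x⁻¹ * e)
  | .chain => Pool.Agent.TH744.Tree.Tame.{u} G x e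

theorem dir_quadrant {G : Type} [Group G] {x e : G} (hc : Commute x e)
    (h : Piece.{u} G x (x⁻¹ * e)) : Dir.{u} G (pos .quadrant x e) := by
  have hT : TameE.{u} G x e := h.tameE hc
  refine ⟨?_, ?_, ?_⟩
  · rintro _ ⟨A, B, -, -, rfl⟩ _ ⟨C, D, -, -, rfl⟩
    have c1 : Commute (x ^ A) (x ^ C * e ^ D) :=
      ((Commute.refl x).pow_pow A C).mul_right (hc.pow_pow A D)
    have c2 : Commute (e ^ B) (x ^ C * e ^ D) :=
      (hc.symm.pow_pow B C).mul_right ((Commute.refl e).pow_pow B D)
    exact c1.mul_left c2
  · rintro X _ ρ _ ⟨A, B, hA, hB, rfl⟩ _ ⟨C, D, hC, hD, rfl⟩ p hp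
    have h1 := (hT.scap X ρ A B C D hA hB hC hD).up p hp
    rwa [← Pool.Agent.L7h76.MT.lt_of_inv] at h1
  · rintro X _ ρ _ ⟨A, B, hA, hB, rfl⟩ p hp
    exact hT.fix X ρ A B hA hB p hp

theorem dir_chain {G : Type} [Group G] {x e : G} (h : Pool.Agent.TH744.Tree.Tame.{u} G x e) :
    Dir.{u} G (pos .chain x e) := by
  have hc := h.comm
  refine ⟨?_, ?_, ?_⟩
  · rintro _ ⟨a, b, -, rfl⟩ _ ⟨a', b', -, rfl⟩
    have c1 : Commute (x ^ a) (x ^ a' * e ^ b') :=
      ((Commute.refl x).zpow_zpow a a').mul_right (hc.zpow_zpow a b')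
    have c2 : Commute (e ^ b) (x ^ a' * e ^ b') :=
      (hc.symm.zpow_zpow b a').mul_right ((Commute.refl e).zpow_zpow b b')
    exact c1.mul_left c2
  · rintro X _ ρ _ ⟨a, b, hab, rfl⟩ _ ⟨a', b', hab', rfl⟩ p hp
    exact h.det X ρ a' b' hab' p (h.up_of ρ hab hp)
  · rintro X _ ρ _ ⟨a, b, hab, rfl⟩ p hp
    exact h.fix_of ρ hab hp

theorem Inv.dir {k : Kind} {G : Type} [Group G] {x e : G} (h : Inv.{u} k G x e) :
    Dir.{u} G (pos k x e) := by
  cases k
  · exact dir_quadrant h.1 h.2
  · exact dir_chain h

theorem piece_step {G : Type} [Group G] (K : Block) (hK : IsPiece K)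
    (j : PresentedGroup K.rel →* G)
    (N : K.Tori → Type) [∀ i, Group (N i)] (js : ∀ i, N i →* G) (k : K.Tori → Kind)
    (x e : ∀ i, N i) (S : Set K.Tori) (ih : ∀ i ∈ S, i ≠ 0 → Inv.{u} (k i) (N i) (x i) (e i))
    (glue : ∀ i ∈ S, i ≠ 0 → Both (js i '' pos (k i) (x i) (e i))
      (j (PresentedGroup.mk K.rel (K.x i))) (j (PresentedGroup.mk K.rel (K.e i)))⁻¹)
    (solid : ∀ i, i ∉ S → i ≠ 0 → ∃ p q : ℕ, 1 ≤ q ∧ ((∃ k, K = Block.seif k) → 1 ≤ p) ∧
      j (PresentedGroup.mk K.rel (K.x i)) ^ p * j (PresentedGroup.mk K.rel (K.e i)) ^ q = 1)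
    (gen : j.range ⊔ ⨆ i ∈ {i | i ∈ S ∧ i ≠ 0}, (js i).range = ⊤) :
    Inv.{u} .quadrant G (j (PresentedGroup.mk K.rel (K.x 0)))
      (j (PresentedGroup.mk K.rel (K.e 0))) := by
  have hb := hK.ok.{u}
  have hcm : ∀ i, Commute (j (PresentedGroup.mk K.rel (K.x i)))
      (j (PresentedGroup.mk K.rel (K.e i))) := fun i => (hb.comm i).map j
  have caps : ∀ (X : Type u) [CompleteLinearOrder X] (ρ : G →* (X ≃o X)) (i : K.Tori), i ≠ 0 →
      Cap (ρ (j (PresentedGroup.mk K.rel (K.x i)))) (ρ (j (PresentedGroup.mk K.rel (K.e i)))) ∧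
      ((∃ k, K = Block.seif k) → SCap (ρ (j (PresentedGroup.mk K.rel (K.x i))))
        (ρ (j (PresentedGroup.mk K.rel (K.e i))))) ∧
      (i ∈ S → ∀ p, ρ (j (PresentedGroup.mk K.rel (K.x i))) p = p →
        ∀ g, ρ (js i g) p = p) := by
    intro X _ ρ i h0
    by_cases hi : i ∈ S
    · have h3 := (ih i hi h0).dir.scap (js i) ρ (glue i hi h0)
      exact ⟨h3.cap, fun _ => h3, fun _ p hp g =>
        (ih i hi h0).dir.both_fix (js i) ρ (glue i hi h0) hp g⟩
    · obtain ⟨p, q, hq, hp, hr⟩ := solid i hi h0
      have hr' := congrArg ρ hr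
      rw [map_mul, map_pow, map_pow, map_one] at hr'
      obtain ⟨c1, c2⟩ := cap_solid ((hcm i).map ρ) hq hr'
      exact ⟨c1, fun hk => c2 (hp hk), fun hi' => absurd hi' hi⟩
  have hgen : ∀ (X : Type u) [CompleteLinearOrder X] (ρ : G →* (X ≃o X)) (p : X),
      (∀ g, ρ (j g) p = p) → ∀ g, ρ g p = p := by
    intro X _ ρ p hp g
    have hle : (⊤ : Subgroup G) ≤ (MulAction.stabilizer (X ≃o X) p).comap ρ := by
      rw [← gen, sup_le_iff]
      refine ⟨?_, iSup₂_le fun i hi => ?_⟩
      · rintro _ ⟨g, rfl⟩; exact hp g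
      · rintro _ ⟨g, rfl⟩; exact (caps X ρ i hi.2).2.2 hi.1 p (hp _) g
    exact hle (Subgroup.mem_top g)
  refine ⟨hcm 0, (Commute.refl _).inv_right.mul_right (hcm 0), fun X _ ρ p hx ha => ?_,
    fun X _ ρ hd g p => ?_⟩
  · refine hgen X ρ p (hb.opn X (ρ.comp j) (fun i hi => (caps X ρ i hi).1) p hx ?_)
    rw [map_mul, map_inv] at ha
    have h2 := congrArg (ρ (j (PresentedGroup.mk K.rel (K.x 0)))) ha
    have h3 : ρ (j (PresentedGroup.mk K.rel (K.x 0)))
        ((ρ (j (PresentedGroup.mk K.rel (K.x 0))))⁻¹
          (ρ (j (PresentedGroup.mk K.rel (K.e 0))) p)) =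
        ρ (j (PresentedGroup.mk K.rel (K.e 0))) p :=
      (ρ (j (PresentedGroup.mk K.rel (K.x 0)))).apply_symm_apply _
    rw [RelIso.mul_apply, h3, hx] at h2
    exact h2
  · refine hgen X ρ p (fun g => ?_) g
    have h0 := Cap.of_dom hd
    rw [← map_mul, mul_inv_cancel_left] at h0
    exact hb.closed X (ρ.comp j) h0 (fun i hi => (caps X ρ i hi).1)
      (fun h i hi => (caps X ρ i hi).2.1 h) g p

/-- The caps of the components of a chain link. -/
theorem chain_cap {G : Type*} [Group G] {n : ℕ} {o m : ℕ → G} {c s : ℕ → Bool}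
    (link : Link n o m c) (N : ℕ → Type) [∀ i, Group (N i)] (js : ∀ i, N i →* G) (k : ℕ → Kind)
    (x e : ∀ i, N i) (S : Set ℕ) (i : ℕ) (ih : i ∈ S → Inv.{u} (k i) (N i) (x i) (e i))
    (glue : i ∈ S → Both (js i '' pos (k i) (x i) (e i)) (o (i + 1))⁻¹
      (o (i + 1) ^ 2 * if s (i + 1) then lon o m c i else (lon o m c i)⁻¹))
    (solid : i ∉ S → ∃ p q : ℤ, 1 ≤ q ∧ 2 * q ≤ |p| ∧ s (i + 1) = decide (0 < p) ∧
      o (i + 1) ^ p * lon o m c i ^ q = 1)
    (X : Type u) [CompleteLinearOrder X] (ρ : G →* (X ≃o X)) :
    Cp X (s (i + 1)) (ρ (o (i + 1))) (ρ (lon o m c i)) ∧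
    (i ∈ S → CpS X (s (i + 1)) (ρ (o (i + 1))) (ρ (lon o m c i)) ∧
      ∀ p, ρ (o (i + 1)) p = p → ∀ g, ρ (js i g) p = p) := by
  by_cases hi : i ∈ S
  · have h1 := (ih hi).dir.cps (js i) ρ (glue hi)
    refine ⟨h1.2, fun _ => ⟨h1.1, fun p hp g => ?_⟩⟩
    rw [Pool.Agent.L7h76.MT.eq_of_inv] at hp
    exact (ih hi).dir.both_fix (js i) ρ (glue hi) hp g
  · obtain ⟨p, q, hq, hp, hs, hr⟩ := solid hi
    refine ⟨?_, fun h => absurd h hi⟩
    rw [hs]
    refine cp_solid mono_aut ((link.comm i).map ρ) hq hp ?_
    have := congrArg ρ hr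
    rwa [map_mul, map_zpow, map_zpow, map_one] at this

theorem chain_gen {G : Type*} [Group G] {n : ℕ} {o m : ℕ → G} {c : ℕ → Bool}
    (N : ℕ → Type) [∀ i, Group (N i)] (js : ∀ i, N i →* G) (T : Set ℕ)
    (gen : Subgroup.closure (Set.range o ∪ Set.range m) ⊔ ⨆ i ∈ T, (js i).range = ⊤)
    {X : Type u} [CompleteLinearOrder X] (ρ : G →* (X ≃o X)) {p : X} (ho : ∀ i, ρ (o i) p = p)
    (hm : ∀ i, ρ (m i) p = p) (h : ∀ i ∈ T, ∀ g, ρ (js i g) p = p) (g : G) : ρ g p = p := by
  have hle : (⊤ : Subgroup G) ≤ (MulAction.stabilizer (X ≃o X) p).comap ρ := by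
    rw [← gen, sup_le_iff]
    refine ⟨?_, iSup₂_le fun i hi => ?_⟩
    · rw [Subgroup.closure_le]
      rintro _ (⟨i, rfl⟩ | ⟨i, rfl⟩)
      · exact ho i
      · exact hm i
    · rintro _ ⟨g, rfl⟩; exact h i hi g
  exact hle (Subgroup.mem_top g)

theorem tws_eq (n : ℕ) (c s : ℕ → Bool) : tws c s n = twist n c s := by
  unfold tws twist
  induction n with
  | zero => rfl
  | succ n ih =>
    rw [Finset.sum_range_succ, ← ih]
    show Pool.Agent.TH744.Chain.tw s _ n + Pool.Agent.TH744.Chain.del (s n) (!c n) = _
    unfold Pool.Agent.TH744.Chain.del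
    cases s n <;> cases c n <;> simp

theorem Tree.inv {G : Type} [Group G] {k : Kind} {x e : G} (h : Tree G k x e) :
    Inv.{u} k G x e := by
  induction h with
  | @knot G _ μ l n h => exact ⟨((Commute.refl μ).zpow_right n).mul_right h.comm, h.piece⟩
  | @piece G _ K hK j N _ js k x e S hS glue solid gen ih =>
    exact piece_step K hK j N js k x e S ih glue solid gen
  | @chain G _ n hn o m c s link per s0 N _ js k x e S hS glue solid tw gen ih =>
    have node : Node.{u} G n o m c s := by
      refine ⟨link, hn, per, fun X _ ρ i hi => ?_, fun X _ ρ p ho hm => ?_⟩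
      · exact (chain_cap link N js k x e S i (fun h => ih i h hi) (fun h => glue i h hi)
          (fun h => solid i h hi) X ρ).1
      · refine chain_gen (c := c) (n := n) N js _ gen ρ ho hm fun i hi => ?_
        exact ((chain_cap link N js k x e S i (fun h => ih i h hi.2) (fun h => glue i h hi.2)
          (fun h => solid i h hi.2) X ρ).2 hi.1).2 p (ho _)
    refine node.tame ?_
    have e1 : set0 n s true = s := by
      funext i
      unfold set0
      split_ifs with h
      · obtain ⟨t, rfl⟩ := Nat.dvd_of_mod_eq_zero h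
        have h2 : ∀ t, s (n * t) = true := by
          intro t
          induction t with
          | zero => simpa using s0
          | succ t ih =>
            rw [Nat.mul_succ, per]; exact ih
        exact (h2 t).symm
      · rfl
    rw [e1, tws_eq]
    exact tw

theorem closed_quadrant {N : Type} [Group N] {x e : N} (h : Inv.{u} .quadrant N x e) {G : Type*}
    [Group G] (j : N →* G) {X : Type u} [CompleteLinearOrder X] (ρ : G →* (X ≃o X))
    (hc : Cap (ρ (j x)) (ρ (j e))) (g : N) (p : X) : ρ (j g) p = p := by
  refine h.2.closed X (ρ.comp j) ?_ g p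
  have h5 := hc.dom
  rw [← map_inv, ← map_mul, ← map_inv, ← map_mul] at h5
  exact h5

/-- Two members of the class. -/
theorem act_glued {N₁ N₂ : Type} {G : Type u} [Group N₁] [Group N₂] [Group G] {x₁ e₁ : N₁}
    {k : Kind} {x₂ e₂ : N₂} (h₁ : Tree N₁ .quadrant x₁ e₁) (h₂ : Tree N₂ k x₂ e₂)
    {j₁ : N₁ →* G} {j₂ : N₂ →* G} (hgen : j₁.range ⊔ j₂.range = ⊤)
    (hb : Both (j₂ '' pos k x₂ e₂) (j₁ x₁) (j₁ e₁)⁻¹) {X : Type u} [CompleteLinearOrder X]
    (ρ : G →* (X ≃o X)) (g : G) (p : X) : ρ g p = p := by
  have hd := (h₂.inv.{u}).dir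
  have t1 : ∀ g p, ρ (j₁ g) p = p := fun g p =>
    closed_quadrant h₁.inv j₁ ρ (hd.scap j₂ ρ hb).cap g p
  have t2 : ∀ g p, ρ (j₂ g) p = p := fun g p => hd.both_fix j₂ ρ hb (t1 x₁ p) g
  have hle : (⊤ : Subgroup G) ≤ (MulAction.stabilizer (X ≃o X) p).comap ρ := by
    rw [← hgen, sup_le_iff]
    constructor
    · rintro _ ⟨g, rfl⟩; exact t1 g p
    · rintro _ ⟨g, rfl⟩; exact t2 g p
  exact hle (Subgroup.mem_top g)

/-- A member of the class of kind `quadrant` and a solid torus. -/
theorem act_solid {N : Type} {G : Type u} [Group N] [Group G] {x e : N}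
    (h : Tree N .quadrant x e) {j : N →* G} (hgen : j.range = ⊤) {a b : ℕ} (hb : 1 ≤ b)
    (hr : j x ^ a * j e ^ b = 1) {X : Type u} [CompleteLinearOrder X]
    (ρ : G →* (X ≃o X)) (g : G) (p : X) : ρ g p = p := by
  have hi := h.inv.{u}
  have hc : Commute (ρ (j x)) (ρ (j e)) := (hi.1.map j).map ρ
  have hr' := congrArg ρ hr
  rw [map_mul, map_pow, map_pow, map_one] at hr'
  obtain ⟨g, rfl⟩ : g ∈ j.range := by rw [hgen]; exact Subgroup.mem_top g
  exact closed_quadrant hi j ρ (cap_solid hc hb hr').1 g p

/-- A chain link all of whose components are filled. -/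
theorem act_chain {G : Type u} [Group G] {n : ℕ} (hn : 1 ≤ n) {o m : ℕ → G} {c s : ℕ → Bool}
    (link : Link n o m c) (per : ∀ i, s (i + n) = s i) (N : ℕ → Type) [∀ i, Group (N i)]
    (js : ∀ i, N i →* G) (k : ℕ → Kind) (x e : ∀ i, N i) (S : Set ℕ)
    (hS : ∀ i ∈ S, i < n → Tree (N i) (k i) (x i) (e i))
    (glue : ∀ i ∈ S, i < n → Glued (js i '' pos (k i) (x i) (e i)) (s (i + 1)) (o (i + 1))
      (lon o m c i))
    (solid : ∀ i ∉ S, i < n → Solid (s (i + 1)) (o (i + 1)) (lon o m c i))
    (tw : (twist n c s = 1 ∨ twist n c s = -1) ∨ (twist n c s = 0 ∧ ∃ i ∈ S, i < n))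
    (gen : Subgroup.closure (Set.range o ∪ Set.range m) ⊔
      ⨆ i ∈ {i | i ∈ S ∧ i < n}, (js i).range = ⊤) {X : Type u} [CompleteLinearOrder X]
    (ρ : G →* (X ≃o X)) (g : G) (p : X) : ρ g p = p := by
  have cap := fun i (hi : i < n) => chain_cap (s := s) link N js k x e S i
    (fun h => (hS i h hi).inv.{u}) (fun h => glue i h hi) (fun h => solid i h hi) X ρ
  have key := (link.map ρ).closed (X := X) (s := s) mono_aut hn per
    (fun i hi => by
      rw [lon_map]
      exact (cap i hi).1)
    (by
      rw [tws_eq]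
      rcases tw with h | ⟨h, i, hi, hin⟩
      · exact Or.inl h
      · refine Or.inr ⟨h, i, ?_⟩
        rw [lon_map]
        exact ((cap i hin).2 hi).1) p
  refine chain_gen (c := c) (n := n) N js _ gen ρ key.2 (fun i => link.mfix ρ key.1 key.2 i)
    (fun i hi => ((cap i hi.2).2 hi.1).2 p (key.2 _)) g

end proof

/-- The fundamental groups of the following closed manifolds are not left-orderable, and all
their homomorphisms to left-orderable groups are trivial: (1) two members of the class, the first one
of kind `quadrant`, glued such that every slope is in the interior of the distinguished interval of one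
of the two sides; (2) a member of the class of kind `quadrant` and a solid torus with a slope
`x ^ a * e ^ b`, `a ≥ 0`, `b ≥ 1`; (3) the exterior of a chain link, where to component `i + 1` a member
of the class (if `i ∈ S`) or a solid torus (if `i ∉ S`) is glued, for all `i < n`, and where the twist is
`1` or `-1`, or it is `0` and at least one filling is a member of the class. -/
theorem result :
    (∀ (N₁ N₂ : Type) (G : Type u) [Group N₁] [Group N₂] [Group G] (x₁ e₁ : N₁) (k : Kind)
      (x₂ e₂ : N₂) (j₁ : N₁ →* G) (j₂ : N₂ →* G),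
      Tree N₁ .quadrant x₁ e₁ → Tree N₂ k x₂ e₂ → j₁.range ⊔ j₂.range = ⊤ →
        Both (j₂ '' pos k x₂ e₂) (j₁ x₁) (j₁ e₁)⁻¹ → NoOrders G) ∧
    (∀ (N : Type) (G : Type u) [Group N] [Group G] (x e : N) (j : N →* G) (a b : ℕ),
      Tree N .quadrant x e → j.range = ⊤ → 1 ≤ b → j x ^ a * j e ^ b = 1 → NoOrders G) ∧
    (∀ (G : Type u) [Group G] (n : ℕ) (o m : ℕ → G) (c s : ℕ → Bool) (N : ℕ → Type)
      [∀ i, Group (N i)] (js : ∀ i, N i →* G) (k : ℕ → Kind) (x e : ∀ i, N i) (S : Set ℕ),
      1 ≤ n → Link n o m c → (∀ i, s (i + n) = s i) →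
      (∀ i ∈ S, i < n → Tree (N i) (k i) (x i) (e i)) →
      (∀ i ∈ S, i < n → Glued (js i '' pos (k i) (x i) (e i)) (s (i + 1)) (o (i + 1))
        (lon o m c i)) →
      (∀ i ∉ S, i < n → Solid (s (i + 1)) (o (i + 1)) (lon o m c i)) →
      ((twist n c s = 1 ∨ twist n c s = -1) ∨ (twist n c s = 0 ∧ ∃ i ∈ S, i < n)) →
      Subgroup.closure (Set.range o ∪ Set.range m) ⊔
        ⨆ i ∈ {i | i ∈ S ∧ i < n}, (js i).range = ⊤ → NoOrders G) :=
  ⟨fun _ _ _ _ _ _ _ _ _ _ _ _ _ h₁ h₂ hgen hb =>
      noOrders fun _ _ ρ g p => act_glued h₁ h₂ hgen hb ρ g p,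
    fun _ _ _ _ _ _ _ _ _ h hgen hb hr => noOrders fun _ _ ρ g p => act_solid h hgen hb hr ρ g p,
    fun _ _ _ _ _ _ _ N _ js k x e S hn link per hS glue solid tw gen =>
      noOrders fun _ _ ρ g p => act_chain hn link per N js k x e S hS glue solid tw gen ρ g p⟩

end Pool.Agent.Results.MP_9ae2f3_gt.MixedTrees
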