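import Pool.Agent.L7h76.FV.Cnd

set_option autoImplicit false

/-!
# Toroidal manifolds with exteriors of the minimally twisted five-chain link as pieces

The minimally twisted five-chain link is given by the diagram of the starting result `FiveChainLink`: it
consists of five round circles `0, 1, 2, 3, 4` in the plane, placed counterclockwise around a ring and
oriented counterclockwise, where only (cyclically) consecutive circles meet, in an outer and an inner
crossing. Circle `i` passes over circle `i + 1` at the outer and under it at the inner crossing for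
`i = 0, 2, 4`, and the other way round for `i = 1, 3`. The exterior of this link is hyperbolic.

We show that this exterior can be used as a piece, with five boundary tori, in the gluing theorems of
`TreesOfChainLinks`, `GluedKnotExteriors`, `MixedTrees` and `FourChainPieces`, with infinitely many
different systems of distinguished intervals of slopes (with respect to meridians and 0-framed
longitudes): for integers `a, b ≥ 0` and `k, l ≥ 1` the intervals

* `[a / k, ∞]`, `[-1, 0]`, `[-1, ∞]`, `[-1 - b / l, -1]`, `[-∞, -1]`, if `a / k = b / l`, and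
* `[a / k, ∞]`, `[-1, 0]`, `[-1, ∞]`, `[-1 - b / l, -1]`, `[1 - 2 * (k + l), -1]`, if
  `b / l - a / k = 1 / (k * l)`.

These systems exhaust the region of slopes of the starting result `FiveChainLink`.

`Tree N Q` is the class of manifolds of `FourChainPieces` (with fundamental group `N` and one boundary
torus, where `Q` is the set of those elements of the fundamental group of the torus which have a slope in the
interior of the distinguished interval; more precisely one half of this set, the other half consists of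
their inverses) extended by the new piece. The theorem: let all boundary tori of the exterior of the
minimally twisted five-chain link be filled by solid tori (with slopes in the distinguished intervals, other
than `∞`, and other than `0` for circle `1`) and by manifolds of the class, such that every slope on the
common torus is in the interior of the distinguished interval of one of the two sides. Then the
fundamental group of the closed manifold has no nontrivial homomorphism to a left-orderable group. The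
manifolds of the class may contain further exteriors of the five-chain link and of all the other pieces.

The proof. Consider an action on a complete linear order. A filled torus of circle `i` moves
points as described by `Cnd`. If all five tori are filled then the group fixes every point (`closed5`;
the starting result proves this for solid tori by an argument which only uses these conditions). If the
torus of one circle is open, then a common fixed point of its meridian and longitude is a fixed point of the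
whole group (`open_x5`, ..., `open_g5`). Both facts imply that all elements of the open torus with
a slope in the interior of the distinguished interval move every point in the same direction
(`dir_inside`), which is the condition needed for gluing.
-/

universe u v

namespace Pool.Agent.Results.MP_9ae2f3_gt.FiveChainPieces

open Pool.Agent.R649.BT (Block SCap)
open Pool.Agent.TH744.Tree (Link lon)
open Pool.Agent.L7h76.MT (Dir Both)
open Pool.Agent.L7h76.FV (word inside)
open Pool.Agent.Results.MP_9ae2f3_gt.GluedKnotExteriors (PropertyD IsPiece NoOrders noOrders)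
open Pool.Agent.Results.MP_9ae2f3_gt.MixedTrees (Kind pos Solid Glued twist)

/-- The Wirtinger relations of the minimally twisted five-chain link: `m i` and `n i` are the meridians
of the two arcs of circle `i`. The arc of `m 0` is the arc of circle `0` through its outer crossing with
circle `1`, that of `n 0` passes through its inner crossing with circle `4`. The arc of `m i` is the one
through the two inner crossings of circle `i` for `i = 1, 3`, and through its two outer crossings for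
`i = 2, 4`. -/
structure Chain5 {G : Type u} [Group G] (m n : Fin 5 → G) : Prop where
  outer01 : n 1 = m 0 * m 1 * (m 0)⁻¹
  inner01 : n 0 = m 1 * m 0 * (m 1)⁻¹
  outer12 : n 1 = m 2 * m 1 * (m 2)⁻¹
  inner12 : n 2 = m 1 * m 2 * (m 1)⁻¹
  outer23 : n 3 = m 2 * m 3 * (m 2)⁻¹
  inner23 : n 2 = m 3 * m 2 * (m 3)⁻¹
  outer34 : n 3 = m 4 * m 3 * (m 4)⁻¹
  inner34 : n 4 = m 3 * m 4 * (m 3)⁻¹
  outer40 : m 0 = m 4 * n 0 * (m 4)⁻¹
  inner40 : n 4 = n 0 * m 4 * (n 0)⁻¹

/-- The 0-framed longitude of circle `i` which starts on the arc of `m i` and commutes with `m i`. -/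
def longitude {G : Type u} [Group G] (m n : Fin 5 → G) : Fin 5 → G :=
  ![(m 1)⁻¹ * (m 4)⁻¹, (m 0)⁻¹ * m 2, (m 3)⁻¹ * m 1, (m 2)⁻¹ * m 4, (n 0)⁻¹ * m 3]

/-- The data of a system of distinguished intervals: two nonnegative fractions `a / k` and `b / l`. -/
structure Box where
  a : ℕ
  k : ℕ
  b : ℕ
  l : ℕ
  farey : Bool

/-- The fractions are equal (`farey = false`), or `b / l - a / k = 1 / (k * l)` (`farey = true`). -/
def Box.Valid (t : Box) : Prop :=
  1 ≤ t.k ∧ 1 ≤ t.l ∧ t.b * t.k = t.a * t.l + if t.farey then 1 else 0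

/-- One endpoint of the distinguished interval of circle `i`: the coordinates `(p, q)` of an element
`m i ^ p * longitude m n i ^ q` whose slope `p / q` is this endpoint. -/
def Box.fst (t : Box) : Fin 5 → ℤ × ℤ :=
  ![(1, 0), (0, 1), (1, 0), (-((t.l + t.b : ℕ) : ℤ), (t.l : ℤ)),
    if t.farey then (-((2 * (t.k + t.l) - 1 : ℕ) : ℤ), 1) else (-1, 0)]

/-- The other endpoint of the distinguished interval of circle `i`. The slopes in the interval
are the slopes of the nonnegative linear combinations of `t.fst i` and `t.snd i`. -/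
def Box.snd (t : Box) : Fin 5 → ℤ × ℤ :=
  ![((t.a : ℤ), (t.k : ℤ)), (-1, 1), (-1, 1), (-1, 1), (-1, 1)]

/-- Circle `i` is filled by a solid torus with slope `p / q` in the distinguished interval, where
`p / q ≠ ∞`, and `p / q ≠ 0` for `i = 1`. -/
def Filled {G : Type u} [Group G] (t : Box) (m n : Fin 5 → G) (i : Fin 5) : Prop :=
  ∃ p q : ℤ, 1 ≤ q ∧ (i = 0 → (t.a : ℤ) * q ≤ t.k * p) ∧ (i = 1 → -q ≤ p ∧ p < 0) ∧
    (i = 2 → -q ≤ p) ∧ (i = 3 → -(((t.l + t.b : ℕ) : ℤ) * q) ≤ t.l * p ∧ p ≤ -q) ∧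
    (i = 4 → p ≤ -q ∧ (t.farey = true → -(((2 * (t.k + t.l) - 1 : ℕ) : ℤ) * q) ≤ p)) ∧
    m i ^ p * longitude m n i ^ q = 1

/-- `Tree G Q`: the group `G` of a manifold with one boundary torus; `Q` is the set of the boundary
elements with a slope in the interior of the distinguished interval (one half of it, the other half consists of
their inverses). The constructors `knot`, `piece`, `chain` and `four` are those of `FourChainPieces` (but
the manifolds which are glued to the pieces are members of the present class).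

`five`: the exterior of the minimally twisted five-chain link with the system `t` of distinguished
intervals. The torus of circle `r` stays open; for `i ∈ S`, `i ≠ r`, a manifold of the class with group
`N i` is glued to the torus of circle `i`, such that all slopes outside the interior of the distinguished
interval of circle `i` are in the interior of its distinguished interval; for `i ∉ S`, `i ≠ r`, a solid
torus is glued to it. -/
inductive Tree : (G : Type) → [Group G] → Set G → Prop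
  | knot {G : Type} [Group G] {μ l : G} {n : ℤ} (h : PropertyD G μ l n) :
      Tree G (pos .quadrant μ (μ ^ n * l))
  | piece {G : Type} [Group G] (K : Block) (hK : IsPiece K) (j : PresentedGroup K.rel →* G)
      (N : K.Tori → Type) [∀ i, Group (N i)] (js : ∀ i, N i →* G) (Q : ∀ i, Set (N i))
      (S : Set K.Tori) (hS : ∀ i ∈ S, i ≠ 0 → Tree (N i) (Q i))
      (glue : ∀ i ∈ S, i ≠ 0 → Both (js i '' Q i)
        (j (PresentedGroup.mk K.rel (K.x i))) (j (PresentedGroup.mk K.rel (K.e i)))⁻¹)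
      (solid : ∀ i, i ∉ S → i ≠ 0 → ∃ p q : ℕ, 1 ≤ q ∧ ((∃ k, K = Block.seif k) → 1 ≤ p) ∧
        j (PresentedGroup.mk K.rel (K.x i)) ^ p * j (PresentedGroup.mk K.rel (K.e i)) ^ q = 1)
      (gen : j.range ⊔ ⨆ i ∈ {i | i ∈ S ∧ i ≠ 0}, (js i).range = ⊤) :
      Tree G (pos .quadrant (j (PresentedGroup.mk K.rel (K.x 0)))
        (j (PresentedGroup.mk K.rel (K.e 0))))
  | chain {G : Type} [Group G] (n : ℕ) (hn : 1 ≤ n) (o m : ℕ → G) (c s : ℕ → Bool)
      (link : Link n o m c) (per : ∀ i, s (i + n) = s i) (s0 : s 0 = true)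
      (N : ℕ → Type) [∀ i, Group (N i)] (js : ∀ i, N i →* G) (Q : ∀ i, Set (N i))
      (S : Set ℕ) (hS : ∀ i ∈ S, i + 1 < n → Tree (N i) (Q i))
      (glue : ∀ i ∈ S, i + 1 < n → Glued (js i '' Q i) (s (i + 1)) (o (i + 1)) (lon o m c i))
      (solid : ∀ i ∉ S, i + 1 < n → Solid (s (i + 1)) (o (i + 1)) (lon o m c i))
      (tw : twist n c s = 0 ∨ twist n c s = -1)
      (gen : Subgroup.closure (Set.range o ∪ Set.range m) ⊔
        ⨆ i ∈ {i | i ∈ S ∧ i + 1 < n}, (js i).range = ⊤) :
      Tree G (pos .chain (o 0) (lon o m c (n - 1)))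
  | four {G : Type} [Group G] (t : FourChainPieces.Box) (o n : Fin 4 → G)
      (link : FourChainPieces.Chain4 o n) (r : Fin 4)
      (N : Fin 4 → Type) [∀ i, Group (N i)] (js : ∀ i, N i →* G) (Q : ∀ i, Set (N i))
      (S : Set (Fin 4)) (hS : ∀ i ∈ S, i ≠ r → Tree (N i) (Q i))
      (glue : ∀ i ∈ S, i ≠ r → Both (js i '' Q i) (FourChainPieces.fst t o n i)
        (FourChainPieces.snd t o n i)⁻¹)
      (solid : ∀ i ∉ S, i ≠ r → FourChainPieces.Filled t o n i)
      (gen : Subgroup.closure (Set.range o ∪ Set.range n) ⊔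
        ⨆ i ∈ {i | i ∈ S ∧ i ≠ r}, (js i).range = ⊤) :
      Tree G (pos .quadrant (FourChainPieces.fst t o n r) (FourChainPieces.snd t o n r))
  | five {G : Type} [Group G] (t : Box) (ht : t.Valid) (m n : Fin 5 → G) (link : Chain5 m n)
      (r : Fin 5) (N : Fin 5 → Type) [∀ i, Group (N i)] (js : ∀ i, N i →* G)
      (Q : ∀ i, Set (N i)) (S : Set (Fin 5)) (hS : ∀ i ∈ S, i ≠ r → Tree (N i) (Q i))
      (glue : ∀ i ∈ S, i ≠ r → Both (js i '' Q i) (word (m i) (longitude m n i) (t.fst i))
        (word (m i) (longitude m n i) (t.snd i))⁻¹)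
      (solid : ∀ i ∉ S, i ≠ r → Filled t m n i)
      (gen : Subgroup.closure (Set.range m ∪ Set.range n) ⊔
        ⨆ i ∈ {i | i ∈ S ∧ i ≠ r}, (js i).range = ⊤) :
      Tree G (inside (m r) (longitude m n r) (t.fst r) (t.snd r))

section link

open Pool.Agent.L7h76.FV

variable {G : Type u} [Group G] {m n : Fin 5 → G}

theorem Chain5.map (h : Chain5 m n) {H : Type*} [Group H] (f : G →* H) :
    Chain5 (fun i => f (m i)) (fun i => f (n i)) := by
  refine ⟨?_, ?_, ?_, ?_, ?_, ?_, ?_, ?_, ?_, ?_⟩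
  · rw [h.outer01, map_mul, map_mul, map_inv]
  · rw [h.inner01, map_mul, map_mul, map_inv]
  · rw [h.outer12, map_mul, map_mul, map_inv]
  · rw [h.inner12, map_mul, map_mul, map_inv]
  · rw [h.outer23, map_mul, map_mul, map_inv]
  · rw [h.inner23, map_mul, map_mul, map_inv]
  · rw [h.outer34, map_mul, map_mul, map_inv]
  · rw [h.inner34, map_mul, map_mul, map_inv]
  · conv_lhs => rw [h.outer40, map_mul, map_mul, map_inv]
  · rw [h.inner40, map_mul, map_mul, map_inv]

theorem longitude_map {H : Type*} [Group H] (f : G →* H) (i : Fin 5) :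
    longitude (fun i => f (m i)) (fun i => f (n i)) i = f (longitude m n i) := by
  fin_cases i <;> simp [longitude]

theorem word_map {H : Type*} [Group H] (f : G →* H) (μ l : G) (w : ℤ × ℤ) :
    word (f μ) (f l) w = f (word μ l w) := by
  simp [word]

/-- The relations in terms of `x = (n 0)⁻¹`, `y = m 2`, `c = m 1`, `e = m 3`, `g = m 4`. -/
theorem Chain5.rel (h : Chain5 m n) : Rel5 (n 0)⁻¹ (m 2) (m 1) (m 3) (m 4) := by
  obtain ⟨w1, w2, w3, w4, w5, w6, w7, w8, w9, w10⟩ := h
  have tx : (m 0)⁻¹ = m 4 * (n 0)⁻¹ * (m 4)⁻¹ := by rw [w9]; group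
  constructor
  · have h1 : n 0 = m 1 * m 4 * n 0 * (m 4)⁻¹ * (m 1)⁻¹ := by
      calc n 0 = m 1 * m 0 * (m 1)⁻¹ := w2
        _ = m 1 * (m 4 * n 0 * (m 4)⁻¹) * (m 1)⁻¹ := by rw [← w9]
        _ = _ := by group
    have h2 : n 0 * (m 1 * m 4) = m 1 * m 4 * n 0 := by
      calc n 0 * (m 1 * m 4)
          = (m 1 * m 4 * n 0 * (m 4)⁻¹ * (m 1)⁻¹) * (m 1 * m 4) := by rw [← h1]
        _ = _ := by group
    exact (show Commute (n 0) (m 1 * m 4) from h2).inv_left.eq
  · have h1 : m 0 * m 1 * (m 0)⁻¹ = m 2 * m 1 * (m 2)⁻¹ := by rw [← w1, ← w3]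
    rw [← tx]
    calc m 1 * ((m 0)⁻¹ * m 2) = (m 0)⁻¹ * (m 0 * m 1 * (m 0)⁻¹) * m 2 := by group
      _ = (m 0)⁻¹ * (m 2 * m 1 * (m 2)⁻¹) * m 2 := by rw [h1]
      _ = _ := by group
  · have h1 : m 1 * m 2 * (m 1)⁻¹ = m 3 * m 2 * (m 3)⁻¹ := by rw [← w4, ← w6]
    calc m 2 * ((m 3)⁻¹ * m 1) = (m 3)⁻¹ * (m 3 * m 2 * (m 3)⁻¹) * m 1 := by group
      _ = (m 3)⁻¹ * (m 1 * m 2 * (m 1)⁻¹) * m 1 := by rw [h1]
      _ = _ := by group
  · have h1 : m 2 * m 3 * (m 2)⁻¹ = m 4 * m 3 * (m 4)⁻¹ := by rw [← w5, ← w7]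
    calc m 3 * ((m 2)⁻¹ * m 4) = (m 2)⁻¹ * (m 2 * m 3 * (m 2)⁻¹) * m 4 := by group
      _ = (m 2)⁻¹ * (m 4 * m 3 * (m 4)⁻¹) * m 4 := by rw [h1]
      _ = _ := by group
  · have h1 : m 3 * m 4 * (m 3)⁻¹ = n 0 * m 4 * (n 0)⁻¹ := by rw [← w8, ← w10]
    calc m 4 * ((n 0)⁻¹ * m 3) = (n 0)⁻¹ * (n 0 * m 4 * (n 0)⁻¹) * m 3 := by group
      _ = (n 0)⁻¹ * (m 3 * m 4 * (m 3)⁻¹) * m 3 := by rw [h1]
      _ = _ := by group

theorem Chain5.m0 (h : Chain5 m n) : (m 4)⁻¹ * m 0 * m 4 = (n 0)⁻¹⁻¹ := by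
  rw [h.outer40]; group

theorem Chain5.l0 (_ : Chain5 m n) : (m 4)⁻¹ * longitude m n 0 * m 4 = (m 1 * m 4)⁻¹ := by
  show (m 4)⁻¹ * ((m 1)⁻¹ * (m 4)⁻¹) * m 4 = (m 1 * m 4)⁻¹
  group

theorem Chain5.l1 (h : Chain5 m n) :
    longitude m n 1 = m 4 * (n 0)⁻¹ * (m 4)⁻¹ * m 2 := by
  show (m 0)⁻¹ * m 2 = _
  rw [h.outer40]; group

theorem Chain5.comm (h : Chain5 m n) (i : Fin 5) : Commute (m i) (longitude m n i) := by
  have hr := h.rel
  fin_cases i
  · have h1 : Commute (n 0)⁻¹ (m 1 * m 4) := hr.cx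
    have h2 : Commute ((m 4)⁻¹ * m 0 * m 4) ((m 4)⁻¹ * longitude m n 0 * m 4) := by
      rw [h.m0, h.l0]; exact h1.inv_inv
    have h3 := (Commute.conj_iff (m 4)).mpr h2
    have e1 : m 4 * ((m 4)⁻¹ * m 0 * m 4) * (m 4)⁻¹ = m 0 := by group
    have e2 : m 4 * ((m 4)⁻¹ * longitude m n 0 * m 4) * (m 4)⁻¹ = longitude m n 0 := by group
    rwa [e1, e2] at h3
  · show Commute (m 1) (longitude m n 1)
    rw [h.l1]; exact hr.cc
  · exact hr.cy
  · exact hr.ce
  · exact hr.cg

end link

section act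

open Pool.Agent.L7h76.FC
open Pool.Agent.L7h76.FV

variable {X : Type u} [CompleteLinearOrder X]

/-- The conditions at the torus of circle `i` with meridian `μ` and longitude `l`. -/
def Cnd (t : Box) (μ l : X ≃o X) (i : Fin 5) : Prop :=
  (i = 0 → PCap μ l ∧ PCap μ (μ ^ t.a * l ^ t.k)) ∧ (i = 1 → Dmn μ l) ∧ (i = 2 → Low μ l) ∧
    (i = 3 → Far μ l ∧ Under μ l t.l (t.l + t.b)) ∧
    (i = 4 → Far μ l ∧ (t.farey = true → Under μ l 1 (2 * (t.k + t.l) - 1)))

theorem cnd_scap {t : Box} (ht : t.Valid) {μ l : X ≃o X} (hc : Commute μ l) {i : Fin 5}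
    (h : SCap (word μ l (t.fst i)) (word μ l (t.snd i))) : Cnd t μ l i := by
  have w10 : word μ l (1, 0) = μ := by
    unfold word
    rw [zpow_one, zpow_zero, mul_one]
  have w01 : word μ l (0, 1) = l := by
    unfold word
    rw [zpow_one, zpow_zero, one_mul]
  obtain ⟨hk, hl, -⟩ := ht
  refine ⟨?_, ?_, ?_, ?_, ?_⟩
  · rintro rfl
    change SCap (word μ l (1, 0)) (word μ l ((t.a : ℤ), (t.k : ℤ))) at h
    rw [w10] at h
    exact cap0 hk h
  · rintro rfl
    change SCap (word μ l (0, 1)) (word μ l (-1, 1)) at h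
    rw [w01] at h
    exact cap1 h
  · rintro rfl
    change SCap (word μ l (1, 0)) (word μ l (-1, 1)) at h
    rw [w10] at h
    exact cap2 h
  · rintro rfl
    exact cap3 hc h
  · rintro rfl
    change SCap (word μ l (if t.farey then (-((2 * (t.k + t.l) - 1 : ℕ) : ℤ), 1) else (-1, 0)))
      (word μ l (-1, 1)) at h
    by_cases hf : t.farey = true
    · rw [if_pos hf] at h
      have e : 2 * (t.k + t.l) - 1 = 1 + (2 * (t.k + t.l) - 2) := by omega
      rw [e] at h ⊢
      have h' := cap3 (s := 1) hc h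
      exact ⟨h'.1, fun _ => h'.2⟩
    · rw [if_neg hf] at h
      exact ⟨cap4 h, fun h' => absurd h' hf⟩

theorem cnd_filled {t : Box} (ht : t.Valid) {m n : Fin 5 → (X ≃o X)} {i : Fin 5}
    (hc : Commute (m i) (longitude m n i)) (h : Filled t m n i) :
    Cnd t (m i) (longitude m n i) i := by
  obtain ⟨p, q, hq, h0, h1, h2, h3, h4, hr⟩ := h
  refine ⟨fun hi => ?_, fun hi => ?_, fun hi => ?_, fun hi => ?_, fun hi => ?_⟩
  · exact sol0 hc hq hr ht.1 (h0 hi)
  · exact sol1 hc hq hr (h1 hi).2 (h1 hi).1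
  · exact sol2 hc hq hr (h2 hi)
  · exact ⟨sol4 hc hq hr (h3 hi).2, sol3 hc hq hr (h3 hi).1⟩
  · refine ⟨sol4 hc hq hr (h4 hi).1, fun hf => sol3 hc hq hr ?_⟩
    have := (h4 hi).2 hf
    rwa [Nat.cast_one, one_mul]

variable {m n : Fin 5 → (X ≃o X)}

theorem fixall (h : Chain5 m n) {p : X} (h0 : (n 0)⁻¹ p = p) (h1 : m 1 p = p) (h2 : m 2 p = p)
    (h3 : m 3 p = p) (h4 : m 4 p = p) : (∀ i, m i p = p) ∧ ∀ i, n i p = p := by
  let H := MulAction.stabilizer (X ≃o X) p
  have b0 : n 0 ∈ H := by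
    have : (n 0)⁻¹ ∈ H := h0
    exact (H.inv_mem_iff).mp this
  have a1 : m 1 ∈ H := h1
  have a2 : m 2 ∈ H := h2
  have a3 : m 3 ∈ H := h3
  have a4 : m 4 ∈ H := h4
  have a0 : m 0 ∈ H := by
    rw [h.outer40]; exact H.mul_mem (H.mul_mem a4 b0) (H.inv_mem a4)
  have b1 : n 1 ∈ H := by
    rw [h.outer12]; exact H.mul_mem (H.mul_mem a2 a1) (H.inv_mem a2)
  have b2 : n 2 ∈ H := by
    rw [h.inner12]; exact H.mul_mem (H.mul_mem a1 a2) (H.inv_mem a1)
  have b3 : n 3 ∈ H := by
    rw [h.outer23]; exact H.mul_mem (H.mul_mem a2 a3) (H.inv_mem a2)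
  have b4 : n 4 ∈ H := by
    rw [h.inner34]; exact H.mul_mem (H.mul_mem a3 a4) (H.inv_mem a3)
  constructor
  · intro i; fin_cases i
    · exact a0
    · exact a1
    · exact a2
    · exact a3
    · exact a4
  · intro i; fin_cases i
    · exact b0
    · exact b1
    · exact b2
    · exact b3
    · exact b4

theorem cnd0 (h : Chain5 m n) {t : Box} (hc : Cnd t (m 0) (longitude m n 0) 0) :
    PCap (n 0)⁻¹ (m 1 * m 4) ∧ PCap (n 0)⁻¹ ((n 0)⁻¹ ^ t.a * (m 1 * m 4) ^ t.k) := by
  obtain ⟨h1, h2⟩ := hc.1 rfl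
  have c1 := PCap.inv (PCap.conj h1 (m 4))
  have c2 := PCap.inv (PCap.conj h2 (m 4))
  have e : (m 4)⁻¹ * (m 0 ^ t.a * longitude m n 0 ^ t.k) * m 4 =
      ((n 0)⁻¹⁻¹) ^ t.a * ((m 1 * m 4)⁻¹) ^ t.k := by
    rw [← h.m0, ← h.l0]
    have p1 : ∀ (z : X ≃o X) (j : ℕ), ((m 4)⁻¹ * z * m 4) ^ j = (m 4)⁻¹ * z ^ j * m 4 := by
      intro z j
      have := conj_pow (i := j) (a := (m 4)⁻¹) (b := z)
      rwa [inv_inv] at this
    rw [p1, p1]; group
  rw [h.m0, h.l0] at c1
  rw [h.m0, e] at c2
  have hcm : Commute (n 0)⁻¹ (m 1 * m 4) := h.rel.cx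
  refine ⟨by simpa using c1, ?_⟩
  have e2 : (((n 0)⁻¹⁻¹) ^ t.a * ((m 1 * m 4)⁻¹) ^ t.k)⁻¹ =
      (n 0)⁻¹ ^ t.a * (m 1 * m 4) ^ t.k := by
    rw [mul_inv_rev, inv_pow, inv_pow, inv_inv, inv_inv]
    exact (hcm.symm.pow_pow t.k t.a).eq
  rw [e2, inv_inv] at c2
  exact c2

/-- All five tori are filled. -/
theorem act_closed (h : Chain5 m n) {t : Box} (ht : t.Valid)
    (hc : ∀ i, Cnd t (m i) (longitude m n i) i) (p : X) :
    (∀ i, m i p = p) ∧ ∀ i, n i p = p := by
  obtain ⟨c0, c0'⟩ := cnd0 h (hc 0)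
  have c1 := (hc 1).2.1 rfl
  rw [h.l1] at c1
  have c2 : Low (m 2) ((m 3)⁻¹ * m 1) := (hc 2).2.2.1 rfl
  obtain ⟨c3, c3'⟩ := (hc 3).2.2.2.1 rfl
  obtain ⟨c4, c4'⟩ := (hc 4).2.2.2.2 rfl
  change Far (m 3) ((m 2)⁻¹ * m 4) at c3
  change Under (m 3) ((m 2)⁻¹ * m 4) t.l (t.l + t.b) at c3'
  change Far (m 4) ((n 0)⁻¹ * m 3) at c4
  change t.farey = true → Under (m 4) ((n 0)⁻¹ * m 3) 1 (2 * (t.k + t.l) - 1) at c4'
  obtain ⟨hk, hl, hkl⟩ := ht
  have hf : Far5 (n 0)⁻¹ (m 1) (m 3) (m 4) (m 2) t.a t.k t.b t.l := by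
    refine ⟨hk, hl, c0'.up, c0'.down, c3'.1, c3'.2, ?_⟩
    by_cases hf : t.farey = true
    · rw [if_pos hf] at hkl
      refine Or.inr ⟨hkl, fun v hv => ?_, fun v hv => ?_⟩
      · have := (c4' hf).1 v hv
        rwa [pow_one] at this
      · have := (c4' hf).2 v hv
        rwa [pow_one] at this
    · rw [if_neg hf, add_zero] at hkl
      exact Or.inl hkl
  obtain ⟨f1, f2, f3, f4, f5⟩ := closed5 h.rel c0 c1 c2 c3 c4 hf p
  exact fixall h f1 f3 f2 f4 f5

/-- The torus of circle `r` is open. -/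
theorem act_open (h : Chain5 m n) {t : Box} (r : Fin 5)
    (hc : ∀ i, i ≠ r → Cnd t (m i) (longitude m n i) i) {p : X} (h1 : m r p = p)
    (h2 : longitude m n r p = p) : (∀ i, m i p = p) ∧ ∀ i, n i p = p := by
  have c0 : 0 ≠ r → PCap (n 0)⁻¹ (m 1 * m 4) := fun hr => (cnd0 h (hc 0 hr)).1
  have c1 : 1 ≠ r → Dmn (m 1) (m 4 * (n 0)⁻¹ * (m 4)⁻¹ * m 2) := fun hr => by
    have := (hc 1 hr).2.1 rfl
    rwa [h.l1] at this
  have c2 : 2 ≠ r → Low (m 2) ((m 3)⁻¹ * m 1) := fun hr => (hc 2 hr).2.2.1 rfl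
  have c3 : 3 ≠ r → Far (m 3) ((m 2)⁻¹ * m 4) := fun hr => ((hc 3 hr).2.2.2.1 rfl).1
  have c4 : 4 ≠ r → Far (m 4) ((n 0)⁻¹ * m 3) := fun hr => ((hc 4 hr).2.2.2.2 rfl).1
  fin_cases r
  · change m 0 p = p at h1
    change longitude m n 0 p = p at h2
    have b1 : ∀ z : X ≃o X, z p = p → ((m 4)⁻¹ * z * m 4) ((m 4)⁻¹ p) = (m 4)⁻¹ p := by
      intro z hz
      show (m 4)⁻¹ (z (m 4 ((m 4)⁻¹ p))) = _
      rw [aii, hz]
    have b2 := b1 _ h1
    have b3 := b1 _ h2
    rw [h.m0] at b2
    rw [h.l0] at b3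
    have b4 := inv_eq b2
    have b5 := inv_eq b3
    rw [inv_inv] at b4 b5
    obtain ⟨f1, f2, f3, f4, f5⟩ := open_x5 h.rel (c1 (by decide)) (c2 (by decide))
      (c3 (by decide)) (c4 (by decide)) b4 b5
    rw [aii] at f5
    rw [← f5] at f1 f2 f3 f4
    have f6 := inv_eq f5.symm
    rw [inv_inv] at f6
    exact fixall h f1 f3 f2 f4 f6
  · change m 1 p = p at h1
    change longitude m n 1 p = p at h2
    rw [h.l1] at h2
    obtain ⟨f1, f2, f3, f4, f5⟩ := open_c5 h.rel (c0 (by decide)) (c3 (by decide))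
      (c4 (by decide)) h1 h2
    exact fixall h f1 f3 f2 f4 f5
  · obtain ⟨f1, f2, f3, f4, f5⟩ := open_y5 h.rel (c0 (by decide)) (c1 (by decide))
      (c4 (by decide)) h1 h2
    exact fixall h f1 f3 f2 f4 f5
  · obtain ⟨f1, f2, f3, f4, f5⟩ := open_e5 (c0 (by decide)) (c1 (by decide))
      (c4 (by decide)) h1 h2
    exact fixall h f1 f3 f2 f4 f5
  · obtain ⟨f1, f2, f3, f4, f5⟩ := open_g5 (c0 (by decide)) (c1 (by decide))
      (c3 (by decide)) h1 h2
    exact fixall h f1 f3 f2 f4 f5

end act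

section proof

open Pool.Agent.L7h76.FV (piece_step chain_step four_step dir_inside zpow_fix)
open Pool.Agent.Results.MP_9ae2f3_gt.MixedTrees (dir_quadrant)

theorem word_fix {G : Type v} [Group G] {X : Type u} [CompleteLinearOrder X] (ρ : G →* (X ≃o X))
    {μ l : G} {p : X} (h1 : ρ μ p = p) (h2 : ρ l p = p) (w : ℤ × ℤ) : ρ (word μ l w) p = p := by
  unfold word
  rw [map_mul, map_zpow, map_zpow]
  show (ρ μ ^ w.1) ((ρ l ^ w.2) p) = p
  rw [zpow_fix h2, zpow_fix h1]

/-- The conditions at the tori of the five-chain link. -/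
theorem five_cap {G : Type v} [Group G] {t : Box} (ht : t.Valid) {m n : Fin 5 → G}
    (link : Chain5 m n) (N : Fin 5 → Type) [∀ i, Group (N i)] (js : ∀ i, N i →* G)
    (Q : ∀ i, Set (N i)) (S : Set (Fin 5)) (i : Fin 5) (ih : i ∈ S → Dir.{u} (N i) (Q i))
    (glue : i ∈ S → Both (js i '' Q i) (word (m i) (longitude m n i) (t.fst i))
      (word (m i) (longitude m n i) (t.snd i))⁻¹)
    (solid : i ∉ S → Filled t m n i)
    (X : Type u) [CompleteLinearOrder X] (ρ : G →* (X ≃o X)) :
    Cnd t (ρ (m i)) (ρ (longitude m n i)) i ∧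
    (i ∈ S → ∀ p, ρ (m i) p = p → ρ (longitude m n i) p = p → ∀ g, ρ (js i g) p = p) := by
  by_cases hi : i ∈ S
  · have h3 := (ih hi).scap (js i) ρ (glue hi)
    rw [← word_map, ← word_map] at h3
    exact ⟨cnd_scap ht ((link.comm i).map ρ) h3, fun _ p h1 h2 g =>
      (ih hi).both_fix (js i) ρ (glue hi) (word_fix ρ h1 h2 _) g⟩
  · refine ⟨?_, fun hi' => absurd hi' hi⟩
    obtain ⟨p, q, hq, h0, h1, h2, h3, h4, hr⟩ := solid hi
    have hr' := congrArg ρ hr
    rw [map_mul, map_zpow, map_zpow, map_one] at hr'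
    have hf : Filled t (fun i => ρ (m i)) (fun i => ρ (n i)) i :=
      ⟨p, q, hq, h0, h1, h2, h3, h4, by rw [longitude_map]; exact hr'⟩
    have := cnd_filled ht ((link.map ρ).comm i) hf
    rwa [longitude_map] at this

theorem five_gen {G : Type v} [Group G] {m n : Fin 5 → G}
    (N : Fin 5 → Type) [∀ i, Group (N i)] (js : ∀ i, N i →* G) (T : Set (Fin 5))
    (gen : Subgroup.closure (Set.range m ∪ Set.range n) ⊔ ⨆ i ∈ T, (js i).range = ⊤)
    {X : Type u} [CompleteLinearOrder X] (ρ : G →* (X ≃o X)) {p : X}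
    (hp : (∀ i, ρ (m i) p = p) ∧ ∀ i, ρ (n i) p = p)
    (h : ∀ i ∈ T, ∀ g, ρ (js i g) p = p) (g : G) : ρ g p = p := by
  have hle : (⊤ : Subgroup G) ≤ (MulAction.stabilizer (X ≃o X) p).comap ρ := by
    rw [← gen, sup_le_iff]
    refine ⟨?_, iSup₂_le fun i hi => ?_⟩
    · rw [Subgroup.closure_le]
      rintro _ (⟨i, rfl⟩ | ⟨i, rfl⟩)
      · exact hp.1 i
      · exact hp.2 i
    · rintro _ ⟨g, rfl⟩; exact h i hi g
  exact hle (Subgroup.mem_top g)

theorem fix_lon {G : Type v} [Group G] {m n : Fin 5 → G} {X : Type u}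
    [CompleteLinearOrder X] (ρ : G →* (X ≃o X)) {p : X}
    (hp : (∀ i, ρ (m i) p = p) ∧ ∀ i, ρ (n i) p = p) (i : Fin 5) :
    ρ (longitude m n i) p = p := by
  let H := (MulAction.stabilizer (X ≃o X) p).comap ρ
  have hm : ∀ i, m i ∈ H := hp.1
  have hn : ∀ i, n i ∈ H := hp.2
  show longitude m n i ∈ H
  fin_cases i
  · exact H.mul_mem (H.inv_mem (hm 1)) (H.inv_mem (hm 4))
  · exact H.mul_mem (H.inv_mem (hm 0)) (hm 2)
  · exact H.mul_mem (H.inv_mem (hm 3)) (hm 1)
  · exact H.mul_mem (H.inv_mem (hm 2)) (hm 4)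
  · exact H.mul_mem (H.inv_mem (hn 0)) (hm 3)

theorem five_step {G : Type} [Group G] (t : Box) (ht : t.Valid) (m n : Fin 5 → G)
    (link : Chain5 m n) (r : Fin 5) (N : Fin 5 → Type) [∀ i, Group (N i)] (js : ∀ i, N i →* G)
    (Q : ∀ i, Set (N i)) (S : Set (Fin 5)) (ih : ∀ i ∈ S, i ≠ r → Dir.{u} (N i) (Q i))
    (glue : ∀ i ∈ S, i ≠ r → Both (js i '' Q i) (word (m i) (longitude m n i) (t.fst i))
      (word (m i) (longitude m n i) (t.snd i))⁻¹)
    (solid : ∀ i ∉ S, i ≠ r → Filled t m n i)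
    (gen : Subgroup.closure (Set.range m ∪ Set.range n) ⊔
      ⨆ i ∈ {i | i ∈ S ∧ i ≠ r}, (js i).range = ⊤) :
    Dir.{u} G (inside (m r) (longitude m n r) (t.fst r) (t.snd r)) := by
  have cap := fun i (hi : i ≠ r) => five_cap ht link N js Q S i (fun h => ih i h hi)
    (fun h => glue i h hi) (fun h => solid i h hi)
  have all : ∀ (X : Type u) [CompleteLinearOrder X] (ρ : G →* (X ≃o X)) (p : X),
      ((∀ i, ρ (m i) p = p) ∧ ∀ i, ρ (n i) p = p) → ∀ g, ρ g p = p := by
    intro X _ ρ p hp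
    exact five_gen N js _ gen ρ hp fun i hi =>
      (cap i hi.2 X ρ).2 hi.1 p (hp.1 i) (fix_lon ρ hp i)
  refine dir_inside (link.comm r) (fun X _ ρ p h1 h2 => ?_) (fun X _ ρ hs g p => ?_)
  · refine all X ρ p (act_open (t := t) (link.map ρ) r (fun i hi => ?_) h1 ?_)
    · rw [longitude_map]; exact (cap i hi X ρ).1
    · rw [longitude_map]; exact h2
  · refine all X ρ p (act_closed (link.map ρ) ht (fun i => ?_) p) g
    rw [longitude_map]
    by_cases hi : i = r
    · subst hi
      rw [← word_map, ← word_map] at hs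
      exact cnd_scap ht ((link.comm i).map ρ) hs
    · exact (cap i hi X ρ).1

theorem Tree.dir {G : Type} [Group G] {Q : Set G} (h : Tree G Q) : Dir.{u} G Q := by
  induction h with
  | @knot G _ μ l n h =>
    exact dir_quadrant (((Commute.refl μ).zpow_right n).mul_right h.comm) h.piece
  | @piece G _ K hK j N _ js Q S hS glue solid gen ih =>
    exact piece_step K hK j N js Q S ih glue solid gen
  | @chain G _ n hn o m c s link per s0 N _ js Q S hS glue solid tw gen ih =>
    exact chain_step n hn o m c s link per s0 N js Q S ih glue solid tw gen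
  | @four G _ t o n link r N _ js Q S hS glue solid gen ih =>
    exact four_step t o n link r N js Q S ih glue solid gen
  | @five G _ t ht m n link r N _ js Q S hS glue solid gen ih =>
    exact five_step t ht m n link r N js Q S ih glue solid gen

/-- The five-chain link with all five tori filled. -/
theorem act_five {G : Type u} [Group G] {t : Box} (ht : t.Valid) {m n : Fin 5 → G}
    (link : Chain5 m n) (N : Fin 5 → Type) [∀ i, Group (N i)] (js : ∀ i, N i →* G)
    (Q : ∀ i, Set (N i)) (S : Set (Fin 5)) (hS : ∀ i ∈ S, Tree (N i) (Q i))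
    (glue : ∀ i ∈ S, Both (js i '' Q i) (word (m i) (longitude m n i) (t.fst i))
      (word (m i) (longitude m n i) (t.snd i))⁻¹)
    (solid : ∀ i ∉ S, Filled t m n i)
    (gen : Subgroup.closure (Set.range m ∪ Set.range n) ⊔ ⨆ i ∈ S, (js i).range = ⊤)
    {X : Type u} [CompleteLinearOrder X] (ρ : G →* (X ≃o X)) (g : G) (p : X) : ρ g p = p := by
  have cap := fun i => five_cap ht link N js Q S i (fun h => (hS i h).dir.{u})
    (glue i) (solid i) X ρ
  have hp := act_closed (link.map ρ) ht (fun i => by rw [longitude_map]; exact (cap i).1) p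
  exact five_gen N js _ gen ρ hp (fun i hi => (cap i).2 hi p (hp.1 i) (fix_lon ρ hp i)) g

end proof

/-- Let `G` be the fundamental group of a closed manifold which is obtained from the exterior of the
minimally twisted five-chain link (with the system `t` of distinguished intervals) by gluing to the torus
of circle `i` a manifold of the class with group `N i` (if `i ∈ S`) or a solid torus (if `i ∉ S`), for
`i = 0, ..., 4`; or any group which is generated by elements `m i`, `n i` and images of the groups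
`N i` with the corresponding relations. Then `G` is not left-orderable, and all homomorphisms from
`G` to left-orderable groups are trivial. -/
theorem result (t : Box) (ht : t.Valid) (G : Type u) [Group G] (m n : Fin 5 → G)
    (N : Fin 5 → Type) [∀ i, Group (N i)] (js : ∀ i, N i →* G) (Q : ∀ i, Set (N i))
    (S : Set (Fin 5)) (link : Chain5 m n) (hS : ∀ i ∈ S, Tree (N i) (Q i))
    (glue : ∀ i ∈ S, Both (js i '' Q i) (word (m i) (longitude m n i) (t.fst i))
      (word (m i) (longitude m n i) (t.snd i))⁻¹)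
    (solid : ∀ i ∉ S, Filled t m n i)
    (gen : Subgroup.closure (Set.range m ∪ Set.range n) ⊔ ⨆ i ∈ S, (js i).range = ⊤) :
    NoOrders G :=
  noOrders fun _ _ ρ g p => act_five ht link N js Q S hS glue solid gen ρ g p

end Pool.Agent.Results.MP_9ae2f3_gt.FiveChainPieces
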