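import Pool.Agent.Results.MP_9ae2f3_gt.MixedTrees
import Pool.Agent.L7h76.FC.Key

set_option autoImplicit false

/-!
# Toroidal manifolds with exteriors of the 4-chain link as pieces

The 4-chain link `8^4_2` consists of four round circles `0, 1, 2, 3` in the plane, in clockwise cyclic
order around the origin, each oriented clockwise, such that circle `i` meets circle `i + 1` (mod 4) in
two points (the outer and the inner crossing) and no others. The crossings of the circles `2, 3` are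
positive (at the outer crossing `2` passes over `3`, at the inner crossing `3` passes over `2`), the other
crossings are negative (at the outer crossing of `i, i + 1` circle `i + 1` passes over `i`, at the inner
crossing `i` passes over `i + 1`). This is the diagram of the starting result `FourChainLink` of problem
MP_3d425c_gt. The exterior of the link is hyperbolic; the exteriors of the two-bridge links
`C(2a, 1, 2b)` are obtained from it by filling the components `1` and `3` with the slopes `-1/a` and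
`-1/b`.

We show that this exterior can be used as a piece, with four boundary tori, in the gluing theorems of
the starting results `TreesOfChainLinks`, `GluedKnotExteriors` and of `MixedTrees`, with two different systems of
distinguished intervals of slopes (with respect to meridians and 0-framed longitudes):

* `Box.a`: `[0, ∞]` for the components `0` and `2`, and `[-∞, 0]` for the components `1` and `3`;
* `Box.b`: `[-1, ∞]` for the components `0` and `2`, and `[-1, 0]` for the components `1` and `3`.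
  (After filling the components `1` and `3` with the slopes `-1/a` and `-1/b` these are the intervals
  `[a + b - 1, ∞]` for both components of the two-bridge link `C(2a, 1, 2b)`, whose endpoint is the smallest slope
  of the surgeries on both components which are L-spaces.)

`Tree N k x e` is the class of manifolds of `MixedTrees` (with fundamental group `N`, one boundary torus,
and the basis `x, e` of its fundamental group) extended by this piece. The theorem: let all
boundary tori of the exterior of the 4-chain link be filled by solid tori (with slopes in the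
distinguished intervals, other than `∞`, and other than `0` for the components `1`, `3`) and by manifolds
of the class, such that every slope on the common torus is in the interior of the distinguished interval of
one of the two sides. Then the fundamental group of the closed manifold has no
nontrivial homomorphism to a left-orderable group. The manifolds of the class may contain further
exteriors of 4-chain links, of the Borromean rings, of chain links and of knots, circle bundles and alternating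
blocks; in this way every gluing pattern which is a tree occurs, with any of the 4-chain link exteriors in the
role of the first piece.

The proof. Consider an action on a complete linear order. The filled tori move points in opposite
directions along the two basis elements (`Cap`, `SCap`). The four meridians `x, T, y, S` satisfy the relations
`FSys`, and on a component of the complement of the fixed points of `x` the conditions at the four tori
contradict each other (`closed`, `closedB`). For an open torus, a common fixed point of its two basis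
elements is fixed by the whole group (`open_x`, ..., `open_yB`). Both facts imply that all elements of the open torus
with a slope in the interior of the distinguished interval move every point in the same direction
(`key_scap`), which is the condition needed for gluing.
-/

universe u v

namespace Pool.Agent.Results.MP_9ae2f3_gt.FourChainPieces

open Pool.Agent.R649.BT (Block Piece Cap SCap TameE BlockOK cap_solid symm_fix)
open Pool.Agent.TH744.Tree (Link lon Node Cp CpS cp_solid mono_aut tws set0 lon_map)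
open Pool.Agent.L7h76.MT (Dir Both)
open Pool.Agent.Results.MP_9ae2f3_gt.GluedKnotExteriors (PropertyD IsPiece NoOrders noOrders)
open Pool.Agent.Results.MP_9ae2f3_gt.MixedTrees (Kind pos Solid Glued twist)

/-- The Wirtinger relations of the 4-chain link: `o i` and `n i` are the meridians of the outer and of
the inner arc of circle `i`. -/
structure Chain4 {G : Type u} [Group G] (o n : Fin 4 → G) : Prop where
  outer01 : n 0 = o 1 * o 0 * (o 1)⁻¹
  inner01 : o 1 = n 0 * n 1 * (n 0)⁻¹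
  outer12 : n 1 = o 2 * o 1 * (o 2)⁻¹
  inner12 : o 2 = n 1 * n 2 * (n 1)⁻¹
  outer23 : o 3 = (o 2)⁻¹ * n 3 * o 2
  inner23 : n 2 = (n 3)⁻¹ * o 2 * n 3
  outer30 : n 3 = o 0 * o 3 * (o 0)⁻¹
  inner30 : o 0 = n 3 * n 0 * (n 3)⁻¹

/-- The 0-framed longitude of circle `i` which starts on the outer arc and commutes with `o i`. -/
def longitude {G : Type u} [Group G] (o n : Fin 4 → G) : Fin 4 → G :=
  ![(o 1)⁻¹ * (n 3)⁻¹, (o 2)⁻¹ * (n 0)⁻¹, n 3 * (n 1)⁻¹, (o 0)⁻¹ * o 2]

/-- The two systems of distinguished intervals of the exterior of the 4-chain link. -/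
inductive Box : Type
  | a
  | b

/-- The first element of the basis of the torus of circle `i`. -/
def fst {G : Type u} [Group G] (t : Box) (o n : Fin 4 → G) : Fin 4 → G :=
  match t with
  | .a => ![o 0, (o 1)⁻¹, o 2, (o 3)⁻¹]
  | .b => ![o 0, longitude o n 1, o 2, longitude o n 3]

/-- The second element of the basis of the torus of circle `i`. The distinguished interval is the set of
the slopes of `fst t o n i ^ p * snd t o n i ^ q` with `p, q ≥ 0`. -/
def snd {G : Type u} [Group G] (t : Box) (o n : Fin 4 → G) : Fin 4 → G :=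
  match t with
  | .a => longitude o n
  | .b => fun i => (o i)⁻¹ * longitude o n i

/-- Circle `i` is filled by a solid torus with slope `p / q`: for `Box.a` this slope is at least `0` for
`i = 0, 2` and negative for `i = 1, 3`; for `Box.b` it is at least `-1`, and negative for
`i = 1, 3`. -/
def Filled {G : Type u} [Group G] (t : Box) (o n : Fin 4 → G) (i : Fin 4) : Prop :=
  ∃ p q : ℤ, 1 ≤ q ∧ (i = 1 ∨ i = 3 → p < 0) ∧ (t = .a → i = 0 ∨ i = 2 → 0 ≤ p) ∧
    (t = .b → -q ≤ p) ∧ o i ^ p * longitude o n i ^ q = 1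

/-- `Tree G k x e`: the group `G` of a manifold with one boundary torus, with basis `x, e`. The
constructors `knot`, `piece` and `chain` are those of `MixedTrees` (but the manifolds which are glued to the
pieces are members of the present class).

`four`: the exterior of the 4-chain link with the system `t` of distinguished intervals. The torus
of circle `r` stays open; for `i ∈ S`, `i ≠ r`, a manifold of the class with group `N i` is glued to the
torus of circle `i`, such that all slopes outside the interior of the distinguished interval of circle `i` are in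
the interior of its distinguished interval; for `i ∉ S`, `i ≠ r`, a solid torus is glued to it. -/
inductive Tree : (G : Type) → [Group G] → Kind → G → G → Prop
  | knot {G : Type} [Group G] {μ l : G} {n : ℤ} (h : PropertyD G μ l n) :
      Tree G .quadrant μ (μ ^ n * l)
  | piece {G : Type} [Group G] (K : Block) (hK : IsPiece K) (j : PresentedGroup K.rel →* G)
      (N : K.Tori → Type) [∀ i, Group (N i)] (js : ∀ i, N i →* G) (k : K.Tori → Kind)
      (x e : ∀ i, N i) (S : Set K.Tori) (hS : ∀ i ∈ S, i ≠ 0 → Tree (N i) (k i) (x i) (e i))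
      (glue : ∀ i ∈ S, i ≠ 0 → Both (js i '' pos (k i) (x i) (e i))
        (j (PresentedGroup.mk K.rel (K.x i))) (j (PresentedGroup.mk K.rel (K.e i)))⁻¹)
      (solid : ∀ i, i ∉ S → i ≠ 0 → ∃ p q : ℕ, 1 ≤ q ∧ ((∃ k, K = Block.seif k) → 1 ≤ p) ∧
        j (PresentedGroup.mk K.rel (K.x i)) ^ p * j (PresentedGroup.mk K.rel (K.e i)) ^ q = 1)
      (gen : j.range ⊔ ⨆ i ∈ {i | i ∈ S ∧ i ≠ 0}, (js i).range = ⊤) :
      Tree G .quadrant (j (PresentedGroup.mk K.rel (K.x 0))) (j (PresentedGroup.mk K.rel (K.e 0)))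
  | chain {G : Type} [Group G] (n : ℕ) (hn : 1 ≤ n) (o m : ℕ → G) (c s : ℕ → Bool)
      (link : Link n o m c) (per : ∀ i, s (i + n) = s i) (s0 : s 0 = true)
      (N : ℕ → Type) [∀ i, Group (N i)] (js : ∀ i, N i →* G) (k : ℕ → Kind) (x e : ∀ i, N i)
      (S : Set ℕ) (hS : ∀ i ∈ S, i + 1 < n → Tree (N i) (k i) (x i) (e i))
      (glue : ∀ i ∈ S, i + 1 < n → Glued (js i '' pos (k i) (x i) (e i)) (s (i + 1)) (o (i + 1))
        (lon o m c i))
      (solid : ∀ i ∉ S, i + 1 < n → Solid (s (i + 1)) (o (i + 1)) (lon o m c i))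
      (tw : twist n c s = 0 ∨ twist n c s = -1)
      (gen : Subgroup.closure (Set.range o ∪ Set.range m) ⊔
        ⨆ i ∈ {i | i ∈ S ∧ i + 1 < n}, (js i).range = ⊤) :
      Tree G .chain (o 0) (lon o m c (n - 1))
  | four {G : Type} [Group G] (t : Box) (o n : Fin 4 → G) (link : Chain4 o n) (r : Fin 4)
      (N : Fin 4 → Type) [∀ i, Group (N i)] (js : ∀ i, N i →* G) (k : Fin 4 → Kind)
      (x e : ∀ i, N i) (S : Set (Fin 4)) (hS : ∀ i ∈ S, i ≠ r → Tree (N i) (k i) (x i) (e i))
      (glue : ∀ i ∈ S, i ≠ r → Both (js i '' pos (k i) (x i) (e i)) (fst t o n i)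
        (snd t o n i)⁻¹)
      (solid : ∀ i ∉ S, i ≠ r → Filled t o n i)
      (gen : Subgroup.closure (Set.range o ∪ Set.range n) ⊔
        ⨆ i ∈ {i | i ∈ S ∧ i ≠ r}, (js i).range = ⊤) :
      Tree G .quadrant (fst t o n r) (snd t o n r)

section link

open Pool.Agent.L7h76.FC

variable {G : Type u} [Group G] {o n : Fin 4 → G}

theorem Chain4.map (h : Chain4 o n) {H : Type*} [Group H] (f : G →* H) :
    Chain4 (fun i => f (o i)) (fun i => f (n i)) := by
  refine ⟨?_, ?_, ?_, ?_, ?_, ?_, ?_, ?_⟩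
  · rw [h.outer01, map_mul, map_mul, map_inv]
  · conv_lhs => rw [h.inner01, map_mul, map_mul, map_inv]
  · rw [h.outer12, map_mul, map_mul, map_inv]
  · conv_lhs => rw [h.inner12, map_mul, map_mul, map_inv]
  · rw [h.outer23, map_mul, map_mul, map_inv]
  · rw [h.inner23, map_mul, map_mul, map_inv]
  · rw [h.outer30, map_mul, map_mul, map_inv]
  · conv_lhs => rw [h.inner30, map_mul, map_mul, map_inv]

theorem longitude_map {H : Type*} [Group H] (f : G →* H) (i : Fin 4) :
    longitude (fun i => f (o i)) (fun i => f (n i)) i = f (longitude o n i) := by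
  fin_cases i <;> simp [longitude]

theorem fst_map {H : Type*} [Group H] (f : G →* H) (t : Box) (i : Fin 4) :
    fst t (fun i => f (o i)) (fun i => f (n i)) i = f (fst t o n i) := by
  cases t <;> fin_cases i <;> simp [fst, longitude_map]

theorem snd_map {H : Type*} [Group H] (f : G →* H) (t : Box) (i : Fin 4) :
    snd t (fun i => f (o i)) (fun i => f (n i)) i = f (snd t o n i) := by
  cases t <;> simp [snd, longitude_map]

theorem comm_of {a w : G} (h : a = w * a * w⁻¹) : Commute a w := by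
  show a * w = w * a
  calc a * w = w * a * w⁻¹ * w := by rw [← h]
    _ = w * a := by group

/-- The relations in terms of `x = o 0`, `T = (o 1)⁻¹`, `y = (o 1)⁻¹ * o 2 * o 1`,
`S = (o 3)⁻¹`. -/
structure Core (o n : Fin 4 → G) : Prop where
  sys : FSys (o 0) (o 1)⁻¹ ((o 1)⁻¹ * o 2 * o 1) (o 3)⁻¹
  l0 : ((o 1)⁻¹ * o 2 * o 1) * (o 1)⁻¹ * ((o 1)⁻¹ * o 2 * o 1)⁻¹ * (o 3)⁻¹ = longitude o n 0
  l1 : o 0 * ((o 1)⁻¹ * o 2 * o 1) = (longitude o n 1)⁻¹
  l2 : (o 1)⁻¹ * (o 3)⁻¹⁻¹ = (o 1)⁻¹ * longitude o n 2 * o 1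
  l3 : (o 1)⁻¹⁻¹ * ((o 1)⁻¹ * o 2 * o 1)⁻¹ * (o 1)⁻¹ * o 0 = (longitude o n 3)⁻¹
  comm : ∀ i, Commute (o i) (longitude o n i)

theorem Chain4.core (h : Chain4 o n) : Core o n := by
  obtain ⟨r1, r2, r3, r4, r5, r6, r7, r8⟩ := h
  have e0 : longitude o n 0 = (o 1)⁻¹ * (n 3)⁻¹ := rfl
  have e1 : longitude o n 1 = (o 2)⁻¹ * (n 0)⁻¹ := rfl
  have e2 : longitude o n 2 = n 3 * (n 1)⁻¹ := rfl
  have e3 : longitude o n 3 = (o 0)⁻¹ * o 2 := rfl
  have hci : ∀ i, Commute (o i) (longitude o n i) ↔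
      (i = 0 → Commute (o 0) (longitude o n 0)) ∧ (i = 1 → Commute (o 1) (longitude o n 1)) ∧
      (i = 2 → Commute (o 2) (longitude o n 2)) ∧ (i = 3 → Commute (o 3) (longitude o n 3)) := by
    intro i; fin_cases i <;> simp
  suffices hs : FSys (o 0) (o 1)⁻¹ ((o 1)⁻¹ * o 2 * o 1) (o 3)⁻¹ ∧
      ((o 1)⁻¹ * o 2 * o 1) * (o 1)⁻¹ * ((o 1)⁻¹ * o 2 * o 1)⁻¹ * (o 3)⁻¹ = longitude o n 0 ∧
      o 0 * ((o 1)⁻¹ * o 2 * o 1) = (longitude o n 1)⁻¹ ∧
      (o 1)⁻¹ * (o 3)⁻¹⁻¹ = (o 1)⁻¹ * longitude o n 2 * o 1 ∧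
      (o 1)⁻¹⁻¹ * ((o 1)⁻¹ * o 2 * o 1)⁻¹ * (o 1)⁻¹ * o 0 = (longitude o n 3)⁻¹ ∧
      Commute (o 0) (longitude o n 0) ∧ Commute (o 1) (longitude o n 1) ∧
      Commute (o 2) (longitude o n 2) ∧ Commute (o 3) (longitude o n 3) by
    obtain ⟨h1, h2, h3, h4, h5, h6, h7, h8, h9⟩ := hs
    exact ⟨h1, h2, h3, h4, h5, fun i => (hci i).2
      ⟨fun _ => h6, fun _ => h7, fun _ => h8, fun _ => h9⟩⟩
  rw [e0, e1, e2, e3]
  clear hci e0 e1 e2 e3
  generalize o 0 = a0 at *
  generalize o 1 = a1 at *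
  generalize o 2 = a2 at *
  generalize o 3 = a3 at *
  generalize n 0 = b0 at *
  generalize n 1 = b1 at *
  generalize n 2 = b2 at *
  generalize n 3 = b3 at *
  -- the longitude of circle 1
  have c1 : Commute a1 (b0 * a2) := by
    refine comm_of ?_
    calc a1 = b0 * b1 * b0⁻¹ := r2
      _ = b0 * (a2 * a1 * a2⁻¹) * b0⁻¹ := by rw [← r3]
      _ = b0 * a2 * a1 * (b0 * a2)⁻¹ := by group
  have k1 : b0 * a2 = a0 * (a1⁻¹ * a2 * a1) := by
    calc b0 * a2 = a1⁻¹ * (a1 * (b0 * a2)) := by group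
      _ = a1⁻¹ * ((b0 * a2) * a1) := by rw [c1.eq]
      _ = a0 * (a1⁻¹ * a2 * a1) := by rw [r1]; group
  -- the longitude of circle 2
  have h3 : b3 = a2 * a3 * a2⁻¹ := by rw [r5]; group
  have c2' : Commute a2 (b3 * b1⁻¹) := by
    have h1 : Commute a2 (b1 * b3⁻¹) := by
      refine comm_of ?_
      calc a2 = b1 * b2 * b1⁻¹ := r4
        _ = b1 * (b3⁻¹ * a2 * b3) * b1⁻¹ := by rw [← r6]
        _ = b1 * b3⁻¹ * a2 * (b1 * b3⁻¹)⁻¹ := by group
    have h2 := h1.inv_right
    have h4 : (b1 * b3⁻¹)⁻¹ = b3 * b1⁻¹ := by group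
    rwa [h4] at h2
  have k2' : b3 * b1⁻¹ = a2 * (a3 * a1⁻¹) * a2⁻¹ := by rw [h3, r3]; group
  have c2 : Commute a2 (a3 * a1⁻¹) := by
    have h6 := ((Commute.refl a2).inv_right.mul_right c2').mul_right (Commute.refl a2)
    have h7 : a2⁻¹ * (b3 * b1⁻¹) * a2 = a3 * a1⁻¹ := by rw [k2']; group
    rwa [h7] at h6
  have k2 : b3 * b1⁻¹ = a3 * a1⁻¹ := by
    calc b3 * b1⁻¹ = a2 * (a3 * a1⁻¹) * a2⁻¹ := k2'
      _ = (a3 * a1⁻¹) * a2 * a2⁻¹ := by rw [c2.eq]
      _ = a3 * a1⁻¹ := by group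
  -- the longitude of circle 3
  have c3 : Commute a3 (a2⁻¹ * a0) := by
    refine comm_of ?_
    calc a3 = a2⁻¹ * b3 * a2 := r5
      _ = a2⁻¹ * (a0 * a3 * a0⁻¹) * a2 := by rw [← r7]
      _ = a2⁻¹ * a0 * a3 * (a2⁻¹ * a0)⁻¹ := by group
  -- the longitude of circle 0
  have c0 : Commute a0 (b3 * a1) := by
    refine comm_of ?_
    calc a0 = b3 * b0 * b3⁻¹ := r8
      _ = b3 * (a1 * a0 * a1⁻¹) * b3⁻¹ := by rw [← r1]
      _ = b3 * a1 * a0 * (b3 * a1)⁻¹ := by group
  have i0 : (b3 * a1)⁻¹ = a1⁻¹ * b3⁻¹ := by group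
  have c0' : Commute a0 (a1⁻¹ * b3⁻¹) := by rw [← i0]; exact c0.inv_right
  have cT : Commute a1⁻¹ (a0 * (a1⁻¹ * a2 * a1)) := by rw [← k1]; exact c1.inv_left
  have kx : a1⁻¹ * a2 * a1 * a1⁻¹ * (a1⁻¹ * a2 * a1)⁻¹ * a3⁻¹ = a1⁻¹ * b3⁻¹ := by
    have h1 : a1⁻¹ * a2 * a1 * a1⁻¹ * (a1⁻¹ * a2 * a1)⁻¹ = a0⁻¹ * a1⁻¹ * a0 := by
      calc a1⁻¹ * a2 * a1 * a1⁻¹ * (a1⁻¹ * a2 * a1)⁻¹
          = a0⁻¹ * ((a0 * (a1⁻¹ * a2 * a1)) * a1⁻¹) * (a1⁻¹ * a2 * a1)⁻¹ := by group
        _ = a0⁻¹ * (a1⁻¹ * (a0 * (a1⁻¹ * a2 * a1))) * (a1⁻¹ * a2 * a1)⁻¹ := by rw [cT.eq]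
        _ = a0⁻¹ * a1⁻¹ * a0 := by group
    calc a1⁻¹ * a2 * a1 * a1⁻¹ * (a1⁻¹ * a2 * a1)⁻¹ * a3⁻¹
        = a0⁻¹ * a1⁻¹ * a0 * a3⁻¹ := by rw [h1]
      _ = a0⁻¹ * ((a1⁻¹ * b3⁻¹) * a0) := by rw [r7]; group
      _ = a0⁻¹ * (a0 * (a1⁻¹ * b3⁻¹)) := by rw [c0'.eq]
      _ = a1⁻¹ * b3⁻¹ := by group
  have ky : a1⁻¹ * a3⁻¹⁻¹ = a1⁻¹ * (a3 * a1⁻¹) * a1 := by group
  have kS : a1⁻¹⁻¹ * (a1⁻¹ * a2 * a1)⁻¹ * a1⁻¹ * a0 = a2⁻¹ * a0 := by group
  have cy : Commute (a1⁻¹ * a2 * a1) (a1⁻¹ * (a3 * a1⁻¹) * a1) := by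
    show _ * _ = _ * _
    calc a1⁻¹ * a2 * a1 * (a1⁻¹ * (a3 * a1⁻¹) * a1) = a1⁻¹ * (a2 * (a3 * a1⁻¹)) * a1 := by group
      _ = a1⁻¹ * ((a3 * a1⁻¹) * a2) * a1 := by rw [c2.eq]
      _ = _ := by group
  refine ⟨⟨cT.eq, ?_, ?_, ?_⟩, kx, ?_, ?_, ?_, c0', ?_, c2', ?_⟩
  · rw [kx]; exact c0'.eq
  · rw [ky]; exact cy.eq
  · rw [kS]; exact c3.inv_left.eq
  · rw [← k1]; group
  · rw [ky, k2]
  · rw [kS]; group
  · have := c1.inv_right
    have h2 : (b0 * a2)⁻¹ = a2⁻¹ * b0⁻¹ := by group
    rwa [h2] at this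
  · have := c3.inv_right
    have h2 : (a2⁻¹ * a0)⁻¹ = a0⁻¹ * a2 := by group
    rwa [h2] at this

theorem Core.comm' (h : Core o n) (t : Box) (i : Fin 4) :
    Commute (fst t o n i) (snd t o n i) := by
  have h0 := h.comm
  cases t
  · fin_cases i
    · exact h0 0
    · exact (h0 1).inv_left
    · exact h0 2
    · exact (h0 3).inv_left
  · fin_cases i
    · exact (Commute.refl _).inv_right.mul_right (h0 0)
    · exact (h0 1).symm.inv_right.mul_right (Commute.refl _)
    · exact (Commute.refl _).inv_right.mul_right (h0 2)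
    · exact (h0 3).symm.inv_right.mul_right (Commute.refl _)

/-- A filled torus. -/
theorem filled_word (h : Core o n) {t : Box} {i : Fin 4} (hf : Filled t o n i) :
    ∃ p q : ℕ, 1 ≤ q ∧ (t = .a → i = 1 ∨ i = 3 → 1 ≤ p) ∧
      fst t o n i ^ p * snd t o n i ^ q = 1 := by
  obtain ⟨p, q, hq, h1, h2, h3, hr⟩ := hf
  have hc := h.comm i
  cases t
  · by_cases hi : i = 1 ∨ i = 3
    · refine ⟨(-p).toNat, q.toNat, by omega, fun _ _ => by have := h1 hi; omega, ?_⟩
      have e1 : fst .a o n i = (o i)⁻¹ := by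
        rcases hi with rfl | rfl <;> rfl
      rw [e1, ← zpow_natCast, ← zpow_natCast, Int.toNat_of_nonneg (by have := h1 hi; omega),
        Int.toNat_of_nonneg (by omega), inv_zpow, zpow_neg, inv_inv]
      exact hr
    · have hi' : i = 0 ∨ i = 2 := by omega
      refine ⟨p.toNat, q.toNat, by omega, fun _ h => absurd h hi, ?_⟩
      have e1 : fst .a o n i = o i := by
        rcases hi' with rfl | rfl <;> rfl
      have hp := h2 rfl hi'
      rw [e1, ← zpow_natCast, ← zpow_natCast, Int.toNat_of_nonneg hp,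
        Int.toNat_of_nonneg (by omega)]
      exact hr
  · have hp := h3 rfl
    have e2 : snd .b o n i = (o i)⁻¹ * longitude o n i := rfl
    by_cases hi : i = 1 ∨ i = 3
    · have e1 : fst .b o n i = longitude o n i := by
        rcases hi with rfl | rfl <;> rfl
      have hp' := h1 hi
      refine ⟨(q + p).toNat, (-p).toNat, by omega, fun h => (Box.noConfusion h), ?_⟩
      rw [e1, e2, ← zpow_natCast, ← zpow_natCast, Int.toNat_of_nonneg (by omega),
        Int.toNat_of_nonneg (by omega), hc.inv_left.mul_zpow, inv_zpow, zpow_neg, inv_inv, zpow_add]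
      have c1 : Commute (longitude o n i ^ p) (o i ^ p) := (hc.symm.zpow_zpow p p)
      calc longitude o n i ^ q * longitude o n i ^ p * (o i ^ p * longitude o n i ^ (-p))
          = longitude o n i ^ q * (longitude o n i ^ p * o i ^ p) * longitude o n i ^ (-p) := by
            group
        _ = longitude o n i ^ q * (o i ^ p * longitude o n i ^ p) * longitude o n i ^ (-p) := by
            rw [c1.eq]
        _ = longitude o n i ^ q * o i ^ p := by group
        _ = o i ^ p * longitude o n i ^ q := (hc.symm.zpow_zpow q p).eq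
        _ = 1 := hr
    · have hi' : i = 0 ∨ i = 2 := by omega
      have e1 : fst .b o n i = o i := by
        rcases hi' with rfl | rfl <;> rfl
      refine ⟨(p + q).toNat, q.toNat, by omega, fun h => (Box.noConfusion h), ?_⟩
      rw [e1, e2, ← zpow_natCast, ← zpow_natCast, Int.toNat_of_nonneg (by omega),
        Int.toNat_of_nonneg (by omega), hc.inv_left.mul_zpow, zpow_add]
      calc o i ^ p * o i ^ q * ((o i)⁻¹ ^ q * longitude o n i ^ q)
          = o i ^ p * longitude o n i ^ q := by rw [inv_zpow]; group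
        _ = 1 := hr

end link

section act

open Pool.Agent.L7h76.FC

variable {X : Type u} [CompleteLinearOrder X] {o n : Fin 4 → (X ≃o X)}

/-- The conditions at a filled torus. -/
def Capd (t : Box) (o n : Fin 4 → (X ≃o X)) (i : Fin 4) : Prop :=
  Cap (fst t o n i) (snd t o n i) ∧
    (t = .a → i = 1 ∨ i = 3 → SCap (fst t o n i) (snd t o n i))

theorem fixall (h : Chain4 o n) {p : X} (h0 : o 0 p = p) (h1 : (o 1)⁻¹ p = p)
    (h2 : ((o 1)⁻¹ * o 2 * o 1) p = p) (h3 : (o 3)⁻¹ p = p) :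
    (∀ i, o i p = p) ∧ ∀ i, n i p = p := by
  let H := MulAction.stabilizer (X ≃o X) p
  have m0 : o 0 ∈ H := h0
  have m1 : o 1 ∈ H := by
    have : (o 1)⁻¹ ∈ H := h1
    exact (H.inv_mem_iff).mp this
  have m2 : o 2 ∈ H := by
    have a1 : (o 1)⁻¹ * o 2 * o 1 ∈ H := h2
    have a2 := H.mul_mem (H.mul_mem m1 a1) (H.inv_mem m1)
    have e : o 1 * ((o 1)⁻¹ * o 2 * o 1) * (o 1)⁻¹ = o 2 := by group
    rwa [e] at a2
  have m3 : o 3 ∈ H := by
    have : (o 3)⁻¹ ∈ H := h3
    exact (H.inv_mem_iff).mp this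
  have n0 : n 0 ∈ H := by rw [h.outer01]; exact H.mul_mem (H.mul_mem m1 m0) (H.inv_mem m1)
  have n1 : n 1 ∈ H := by rw [h.outer12]; exact H.mul_mem (H.mul_mem m2 m1) (H.inv_mem m2)
  have n3 : n 3 ∈ H := by rw [h.outer30]; exact H.mul_mem (H.mul_mem m0 m3) (H.inv_mem m0)
  have n2 : n 2 ∈ H := by rw [h.inner23]; exact H.mul_mem (H.mul_mem (H.inv_mem n3) m2) n3
  constructor
  · intro i; fin_cases i
    · exact m0
    · exact m1
    · exact m2
    · exact m3
  · intro i; fin_cases i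
    · exact n0
    · exact n1
    · exact n2
    · exact n3

/-! The conditions in terms of `x, T, y, S`. -/

theorem cap_x (h : Core o n) (hc : Capd .a o n 0) :
    PCap (o 0) (((o 1)⁻¹ * o 2 * o 1) * (o 1)⁻¹ * ((o 1)⁻¹ * o 2 * o 1)⁻¹ * (o 3)⁻¹) := by
  rw [h.l0]
  exact ⟨hc.1.up, hc.1.down, hc.1.fix⟩

theorem same_of {T z : X ≃o X} (hc : SCap T z⁻¹) : Same T z := by
  refine ⟨fun v => ⟨fun hv => inv_lt.1 (hc.up v hv), fun hv => ?_⟩,
    fun v => ⟨fun hv => lt_inv.1 (hc.down v hv), fun hv => ?_⟩⟩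
  · rcases lt_trichotomy (T v) v with h1 | h1 | h1
    · exact absurd hv (not_lt.mpr (lt_inv.1 (hc.down v h1)).le)
    · have h2 := hc.fix v h1
      have h3 := congrArg z h2
      rw [aii] at h3
      exact absurd h3 hv.ne
    · exact h1
  · rcases lt_trichotomy (T v) v with h1 | h1 | h1
    · exact h1
    · have h2 := hc.fix v h1
      have h3 := congrArg z h2
      rw [aii] at h3
      exact absurd h3 hv.ne'
    · exact absurd hv (not_lt.mpr (inv_lt.1 (hc.up v h1)).le)

theorem cap_T (h : Core o n) (hc : Capd .a o n 1) :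
    Same (o 1)⁻¹ (o 0 * ((o 1)⁻¹ * o 2 * o 1)) := by
  rw [h.l1]
  refine same_of ?_
  rw [inv_inv]
  exact hc.2 rfl (Or.inl rfl)

theorem cap_S (h : Core o n) (hc : Capd .a o n 3) :
    Same (o 3)⁻¹ ((o 1)⁻¹⁻¹ * ((o 1)⁻¹ * o 2 * o 1)⁻¹ * (o 1)⁻¹ * o 0) := by
  rw [h.l3]
  refine same_of ?_
  rw [inv_inv]
  exact hc.2 rfl (Or.inr rfl)

theorem pcap_conj {x e : X ≃o X} (h : PCap x e) (g : X ≃o X) :
    PCap (g⁻¹ * x * g) (g⁻¹ * e * g) := by
  refine ⟨fun v hv => ?_, fun v hv => ?_, fun v hv => ?_⟩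
  · change v < g⁻¹ (x (g v)) at hv
    show g⁻¹ (e (g v)) ≤ v
    rw [← g.le_iff_le, aii]
    refine h.up _ ?_
    rwa [← (g⁻¹).lt_iff_lt, iia]
  · change g⁻¹ (x (g v)) < v at hv
    show v ≤ g⁻¹ (e (g v))
    rw [← g.le_iff_le, aii]
    refine h.down _ ?_
    rwa [← (g⁻¹).lt_iff_lt, iia]
  · change g⁻¹ (x (g v)) = v at hv
    show g⁻¹ (e (g v)) = v
    rw [← g.injective.eq_iff, aii]
    refine h.fix _ ?_
    rw [← (g⁻¹).injective.eq_iff, iia, hv]

theorem cap_y (h : Core o n) (hc : Capd .a o n 2) :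
    PCap ((o 1)⁻¹ * o 2 * o 1) ((o 1)⁻¹ * (o 3)⁻¹⁻¹) := by
  rw [h.l2]
  exact pcap_conj ⟨hc.1.up, hc.1.down, hc.1.fix⟩ (o 1)

theorem low_of {x l : X ≃o X} (hc : Cap x (x⁻¹ * l)) : Low x l := by
  refine ⟨fun v hv => ?_, fun v hv => ?_, fun v hv => ?_⟩
  · have h1 : x⁻¹ (l v) ≤ v := hc.up v hv
    rw [← x.le_iff_le, aii] at h1; exact h1
  · have h1 : v ≤ x⁻¹ (l v) := hc.down v hv
    rw [← x.le_iff_le, aii] at h1; exact h1
  · have h1 : x⁻¹ (l v) = v := hc.fix v hv
    have h2 := congrArg x h1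
    rw [aii, hv] at h2; exact h2

theorem low_conj {x e : X ≃o X} (h : Low x e) (g : X ≃o X) :
    Low (g⁻¹ * x * g) (g⁻¹ * e * g) := by
  refine ⟨fun v hv => ?_, fun v hv => ?_, fun v hv => ?_⟩
  · change v < g⁻¹ (x (g v)) at hv
    show g⁻¹ (e (g v)) ≤ g⁻¹ (x (g v))
    rw [(g⁻¹).le_iff_le]
    refine h.up _ ?_
    rwa [← (g⁻¹).lt_iff_lt, iia]
  · change g⁻¹ (x (g v)) < v at hv
    show g⁻¹ (x (g v)) ≤ g⁻¹ (e (g v))
    rw [(g⁻¹).le_iff_le]
    refine h.dn _ ?_
    rwa [← (g⁻¹).lt_iff_lt, iia]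
  · change g⁻¹ (x (g v)) = v at hv
    show g⁻¹ (e (g v)) = v
    rw [← g.injective.eq_iff, aii]
    refine h.fix _ ?_
    rw [← (g⁻¹).injective.eq_iff, iia, hv]

theorem dmn_of {T z : X ≃o X} (hc : Cap z⁻¹ (T * z⁻¹)) : Dmn T z := by
  refine ⟨fun v hv => ?_, fun v hv => ?_, fun v hv => ?_⟩
  · have h1 : z⁻¹ (z v) < z v := by rwa [iia]
    have h2 : z v ≤ T (z⁻¹ (z v)) := hc.down _ h1
    rwa [iia] at h2
  · have h1 : z v < z⁻¹ (z v) := by rwa [iia]
    have h2 : T (z⁻¹ (z v)) ≤ z v := hc.up _ h1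
    rwa [iia] at h2
  · have h1 : z⁻¹ v = v := inv_eq hv
    have h2 : T (z⁻¹ v) = v := hc.fix v h1
    rwa [h1] at h2

theorem cap_xB (h : Core o n) (hc : Capd .b o n 0) :
    Low (o 0) (((o 1)⁻¹ * o 2 * o 1) * (o 1)⁻¹ * ((o 1)⁻¹ * o 2 * o 1)⁻¹ * (o 3)⁻¹) := by
  rw [h.l0]
  exact low_of hc.1

theorem cap_yB (h : Core o n) (hc : Capd .b o n 2) :
    Low ((o 1)⁻¹ * o 2 * o 1) ((o 1)⁻¹ * (o 3)⁻¹⁻¹) := by
  rw [h.l2]
  exact low_conj (low_of hc.1) (o 1)

theorem cap_TB (h : Core o n) (hc : Capd .b o n 1) :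
    Dmn (o 1)⁻¹ (o 0 * ((o 1)⁻¹ * o 2 * o 1)) := by
  rw [h.l1]
  refine dmn_of ?_
  rw [inv_inv]
  exact hc.1

theorem cap_SB (h : Core o n) (hc : Capd .b o n 3) :
    Dmn (o 3)⁻¹ ((o 1)⁻¹⁻¹ * ((o 1)⁻¹ * o 2 * o 1)⁻¹ * (o 1)⁻¹ * o 0) := by
  rw [h.l3]
  refine dmn_of ?_
  rw [inv_inv]
  exact hc.1

/-- All four tori are filled. -/
theorem act_closed (h : Chain4 o n) (t : Box) (hc : ∀ i, Capd t o n i) (p : X) :
    (∀ i, o i p = p) ∧ ∀ i, n i p = p := by
  have k := h.core
  cases t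
  · obtain ⟨h0, h1, h2, h3⟩ := closed k.sys (cap_T k (hc 1)) (cap_S k (hc 3)) (cap_x k (hc 0))
      (cap_y k (hc 2)) p
    exact fixall h h0 h1 h2 h3
  · obtain ⟨h0, h1, h2, h3⟩ := closedB k.sys (cap_TB k (hc 1)) (cap_SB k (hc 3)) (cap_xB k (hc 0))
      (cap_yB k (hc 2)) p
    exact fixall h h0 h1 h2 h3

/-- The open torus of circle `2`: conjugation. -/
theorem conj_fix {f p : X} (hf : (o 1)⁻¹ p = f) {g : X ≃o X} (hg : g p = p) :
    ((o 1)⁻¹ * g * o 1) f = f := by
  show (o 1)⁻¹ (g (o 1 f)) = f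
  have h1 : o 1 f = p := by rw [← hf, aii]
  rw [h1, hg, hf]

/-- The torus of circle `r` is open. -/
theorem act_open (h : Chain4 o n) (t : Box) (r : Fin 4)
    (hc : ∀ i, i ≠ r → Capd t o n i) {p : X} (h1 : fst t o n r p = p) (h2 : snd t o n r p = p) :
    (∀ i, o i p = p) ∧ ∀ i, n i p = p := by
  have k := h.core
  have back : ∀ f : X, (o 1)⁻¹ p = f → (o 1)⁻¹ f = f → f = p := by
    intro f hf hf'
    rw [← hf] at hf' ⊢
    exact (o 1)⁻¹.injective hf'
  cases t
  · fin_cases r
    · have a1 : o 0 p = p := h1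
      have a2 : longitude o n 0 p = p := h2
      rw [← k.l0] at a2
      obtain ⟨h0, h1, h2, h3⟩ := open_x k.sys (cap_T k (hc 1 (by decide)))
        (cap_y k (hc 2 (by decide))) a1 a2
      exact fixall h h0 h1 h2 h3
    · have a1 : (o 1)⁻¹ p = p := h1
      have a2 : longitude o n 1 p = p := h2
      have a3 := inv_eq a2
      rw [← k.l1] at a3
      obtain ⟨h0, h1, h2, h3⟩ := open_T (cap_S k (hc 3 (by decide)))
        (cap_y k (hc 2 (by decide))) a1 a3
      exact fixall h h0 h1 h2 h3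
    · have a1 : o 2 p = p := h1
      have a2 : longitude o n 2 p = p := h2
      have a3 := conj_fix (o := o) (f := (o 1)⁻¹ p) rfl a1
      have a4 := conj_fix (o := o) (f := (o 1)⁻¹ p) rfl a2
      rw [← k.l2] at a4
      obtain ⟨h0, h1, h2, h3⟩ := open_y (cap_T k (hc 1 (by decide)))
        (cap_x k (hc 0 (by decide))) a3 a4
      have e := back _ rfl h1
      rw [e] at h0 h1 h2 h3
      exact fixall h h0 h1 h2 h3
    · have a1 : (o 3)⁻¹ p = p := h1
      have a2 : longitude o n 3 p = p := h2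
      have a3 := inv_eq a2
      rw [← k.l3] at a3
      obtain ⟨h0, h1, h2, h3⟩ := open_S k.sys (cap_T k (hc 1 (by decide)))
        (cap_y k (hc 2 (by decide))) a1 a3
      exact fixall h h0 h1 h2 h3
  · fin_cases r
    · have a1 : o 0 p = p := h1
      have a2 : (o 0)⁻¹ (longitude o n 0 p) = p := h2
      have a3 : longitude o n 0 p = p := by
        have := congrArg (o 0) a2
        rwa [aii, a1] at this
      rw [← k.l0] at a3
      obtain ⟨h0, h1, h2, h3⟩ := open_xB k.sys (cap_TB k (hc 1 (by decide)))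
        (cap_SB k (hc 3 (by decide))) (cap_yB k (hc 2 (by decide))) a1 a3
      exact fixall h h0 h1 h2 h3
    · have a1 : longitude o n 1 p = p := h1
      have a2 : (o 1)⁻¹ (longitude o n 1 p) = p := h2
      rw [a1] at a2
      have a3 := inv_eq a1
      rw [← k.l1] at a3
      obtain ⟨h0, h1, h2, h3⟩ := open_TB k.sys (cap_SB k (hc 3 (by decide)))
        (cap_xB k (hc 0 (by decide))) (cap_yB k (hc 2 (by decide))) a2 a3
      exact fixall h h0 h1 h2 h3
    · have a1 : o 2 p = p := h1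
      have a2 : (o 2)⁻¹ (longitude o n 2 p) = p := h2
      have a5 : longitude o n 2 p = p := by
        have := congrArg (o 2) a2
        rwa [aii, a1] at this
      have a3 := conj_fix (o := o) (f := (o 1)⁻¹ p) rfl a1
      have a4 := conj_fix (o := o) (f := (o 1)⁻¹ p) rfl a5
      rw [← k.l2] at a4
      obtain ⟨h0, h1, h2, h3⟩ := open_yB k.sys (cap_TB k (hc 1 (by decide)))
        (cap_SB k (hc 3 (by decide))) (cap_xB k (hc 0 (by decide))) a3 a4
      have e := back _ rfl h1
      rw [e] at h0 h1 h2 h3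
      exact fixall h h0 h1 h2 h3
    · have a1 : longitude o n 3 p = p := h1
      have a2 : (o 3)⁻¹ (longitude o n 3 p) = p := h2
      rw [a1] at a2
      have a3 := inv_eq a1
      rw [← k.l3] at a3
      obtain ⟨h0, h1, h2, h3⟩ := open_SB k.sys (cap_TB k (hc 1 (by decide)))
        (cap_xB k (hc 0 (by decide))) (cap_yB k (hc 2 (by decide))) a2 a3
      exact fixall h h0 h1 h2 h3

end act

section proof

open Pool.Agent.Results.MP_9ae2f3_gt.MixedTrees (dir_quadrant dir_chain chain_gen tws_eq)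
open Pool.Agent.L7h76.FC (dir_of_scap)

theorem piece_step {G : Type} [Group G] (K : Block) (hK : IsPiece K)
    (j : PresentedGroup K.rel →* G)
    (N : K.Tori → Type) [∀ i, Group (N i)] (js : ∀ i, N i →* G) (k : K.Tori → Kind)
    (x e : ∀ i, N i) (S : Set K.Tori)
    (ih : ∀ i ∈ S, i ≠ 0 → Dir.{u} (N i) (pos (k i) (x i) (e i)))
    (glue : ∀ i ∈ S, i ≠ 0 → Both (js i '' pos (k i) (x i) (e i))
      (j (PresentedGroup.mk K.rel (K.x i))) (j (PresentedGroup.mk K.rel (K.e i)))⁻¹)
    (solid : ∀ i, i ∉ S → i ≠ 0 → ∃ p q : ℕ, 1 ≤ q ∧ ((∃ k, K = Block.seif k) → 1 ≤ p) ∧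
      j (PresentedGroup.mk K.rel (K.x i)) ^ p * j (PresentedGroup.mk K.rel (K.e i)) ^ q = 1)
    (gen : j.range ⊔ ⨆ i ∈ {i | i ∈ S ∧ i ≠ 0}, (js i).range = ⊤) :
    Dir.{u} G (pos .quadrant (j (PresentedGroup.mk K.rel (K.x 0)))
      (j (PresentedGroup.mk K.rel (K.e 0)))) := by
  have hb := hK.ok.{u}
  have hcm : ∀ i, Commute (j (PresentedGroup.mk K.rel (K.x i)))
      (j (PresentedGroup.mk K.rel (K.e i))) := fun i => (hb.comm i).map j
  have caps : ∀ (X : Type u) [CompleteLinearOrder X] (ρ : G →* (X ≃o X)) (i : K.Tori), i ≠ 0 →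
      Cap (ρ (j (PresentedGroup.mk K.rel (K.x i)))) (ρ (j (PresentedGroup.mk K.rel (K.e i)))) ∧
      ((∃ k, K = Block.seif k) → SCap (ρ (j (PresentedGroup.mk K.rel (K.x i))))
        (ρ (j (PresentedGroup.mk K.rel (K.e i))))) ∧
      (i ∈ S → ∀ p, ρ (j (PresentedGroup.mk K.rel (K.x i))) p = p →
        ∀ g, ρ (js i g) p = p) := by
    intro X _ ρ i h0
    by_cases hi : i ∈ S
    · have h3 := (ih i hi h0).scap (js i) ρ (glue i hi h0)
      exact ⟨h3.cap, fun _ => h3, fun _ p hp g =>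
        (ih i hi h0).both_fix (js i) ρ (glue i hi h0) hp g⟩
    · obtain ⟨p, q, hq, hp, hr⟩ := solid i hi h0
      have hr' := congrArg ρ hr
      rw [map_mul, map_pow, map_pow, map_one] at hr'
      obtain ⟨c1, c2⟩ := cap_solid ((hcm i).map ρ) hq hr'
      exact ⟨c1, fun hk => c2 (hp hk), fun hi' => absurd hi' hi⟩
  have hgen : ∀ (X : Type u) [CompleteLinearOrder X] (ρ : G →* (X ≃o X)) (p : X),
      (∀ g, ρ (j g) p = p) → ∀ g, ρ g p = p := by
    intro X _ ρ p hp g
    have hle : (⊤ : Subgroup G) ≤ (MulAction.stabilizer (X ≃o X) p).comap ρ := by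
      rw [← gen, sup_le_iff]
      refine ⟨?_, iSup₂_le fun i hi => ?_⟩
      · rintro _ ⟨g, rfl⟩; exact hp g
      · rintro _ ⟨g, rfl⟩; exact (caps X ρ i hi.2).2.2 hi.1 p (hp _) g
    exact hle (Subgroup.mem_top g)
  refine dir_quadrant (hcm 0) ⟨(Commute.refl _).inv_right.mul_right (hcm 0),
    fun X _ ρ p hx ha => ?_, fun X _ ρ hd g p => ?_⟩
  · refine hgen X ρ p (hb.opn X (ρ.comp j) (fun i hi => (caps X ρ i hi).1) p hx ?_)
    rw [map_mul, map_inv] at ha
    have h2 := congrArg (ρ (j (PresentedGroup.mk K.rel (K.x 0)))) ha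
    have h3 : ρ (j (PresentedGroup.mk K.rel (K.x 0)))
        ((ρ (j (PresentedGroup.mk K.rel (K.x 0))))⁻¹
          (ρ (j (PresentedGroup.mk K.rel (K.e 0))) p)) =
        ρ (j (PresentedGroup.mk K.rel (K.e 0))) p :=
      (ρ (j (PresentedGroup.mk K.rel (K.x 0)))).apply_symm_apply _
    rw [RelIso.mul_apply, h3, hx] at h2
    exact h2
  · refine hgen X ρ p (fun g => ?_) g
    have h0 := Cap.of_dom hd
    rw [← map_mul, mul_inv_cancel_left] at h0
    exact hb.closed X (ρ.comp j) h0 (fun i hi => (caps X ρ i hi).1)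
      (fun h i hi => (caps X ρ i hi).2.1 h) g p

/-- The caps of the components of a chain link. -/
theorem chain_cap {G : Type*} [Group G] {n : ℕ} {o m : ℕ → G} {c s : ℕ → Bool}
    (link : Link n o m c) (N : ℕ → Type) [∀ i, Group (N i)] (js : ∀ i, N i →* G) (k : ℕ → Kind)
    (x e : ∀ i, N i) (S : Set ℕ) (i : ℕ) (ih : i ∈ S → Dir.{u} (N i) (pos (k i) (x i) (e i)))
    (glue : i ∈ S → Both (js i '' pos (k i) (x i) (e i)) (o (i + 1))⁻¹
      (o (i + 1) ^ 2 * if s (i + 1) then lon o m c i else (lon o m c i)⁻¹))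
    (solid : i ∉ S → ∃ p q : ℤ, 1 ≤ q ∧ 2 * q ≤ |p| ∧ s (i + 1) = decide (0 < p) ∧
      o (i + 1) ^ p * lon o m c i ^ q = 1)
    (X : Type u) [CompleteLinearOrder X] (ρ : G →* (X ≃o X)) :
    Cp X (s (i + 1)) (ρ (o (i + 1))) (ρ (lon o m c i)) ∧
    (i ∈ S → CpS X (s (i + 1)) (ρ (o (i + 1))) (ρ (lon o m c i)) ∧
      ∀ p, ρ (o (i + 1)) p = p → ∀ g, ρ (js i g) p = p) := by
  by_cases hi : i ∈ S
  · have h1 := (ih hi).cps (js i) ρ (glue hi)
    refine ⟨h1.2, fun _ => ⟨h1.1, fun p hp g => ?_⟩⟩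
    rw [Pool.Agent.L7h76.MT.eq_of_inv] at hp
    exact (ih hi).both_fix (js i) ρ (glue hi) hp g
  · obtain ⟨p, q, hq, hp, hs, hr⟩ := solid hi
    refine ⟨?_, fun h => absurd h hi⟩
    rw [hs]
    refine cp_solid mono_aut ((link.comm i).map ρ) hq hp ?_
    have := congrArg ρ hr
    rwa [map_mul, map_zpow, map_zpow, map_one] at this

/-- The conditions at the tori of the 4-chain link. -/
theorem four_cap {G : Type v} [Group G] {t : Box} {o n : Fin 4 → G} (link : Chain4 o n)
    (N : Fin 4 → Type) [∀ i, Group (N i)] (js : ∀ i, N i →* G) (k : Fin 4 → Kind)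
    (x e : ∀ i, N i) (S : Set (Fin 4)) (i : Fin 4)
    (ih : i ∈ S → Dir.{u} (N i) (pos (k i) (x i) (e i)))
    (glue : i ∈ S → Both (js i '' pos (k i) (x i) (e i)) (fst t o n i) (snd t o n i)⁻¹)
    (solid : i ∉ S → Filled t o n i)
    (X : Type u) [CompleteLinearOrder X] (ρ : G →* (X ≃o X)) :
    Capd t (fun i => ρ (o i)) (fun i => ρ (n i)) i ∧
    (i ∈ S → ∀ p, ρ (fst t o n i) p = p → ∀ g, ρ (js i g) p = p) := by
  unfold Capd
  rw [fst_map, snd_map]
  by_cases hi : i ∈ S
  · have h3 := (ih hi).scap (js i) ρ (glue hi)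
    exact ⟨⟨h3.cap, fun _ _ => h3⟩, fun _ p hp g => (ih hi).both_fix (js i) ρ (glue hi) hp g⟩
  · obtain ⟨p, q, hq, hp, hr⟩ := filled_word link.core (solid hi)
    have hr' := congrArg ρ hr
    rw [map_mul, map_pow, map_pow, map_one] at hr'
    obtain ⟨c1, c2⟩ := cap_solid ((link.core.comm' t i).map ρ) hq hr'
    exact ⟨⟨c1, fun ht hk => c2 (hp ht hk)⟩, fun hi' => absurd hi' hi⟩

theorem four_gen {G : Type v} [Group G] {o n : Fin 4 → G}
    (N : Fin 4 → Type) [∀ i, Group (N i)] (js : ∀ i, N i →* G) (T : Set (Fin 4))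
    (gen : Subgroup.closure (Set.range o ∪ Set.range n) ⊔ ⨆ i ∈ T, (js i).range = ⊤)
    {X : Type u} [CompleteLinearOrder X] (ρ : G →* (X ≃o X)) {p : X}
    (hp : (∀ i, ρ (o i) p = p) ∧ ∀ i, ρ (n i) p = p)
    (h : ∀ i ∈ T, ∀ g, ρ (js i g) p = p) (g : G) : ρ g p = p := by
  have hle : (⊤ : Subgroup G) ≤ (MulAction.stabilizer (X ≃o X) p).comap ρ := by
    rw [← gen, sup_le_iff]
    refine ⟨?_, iSup₂_le fun i hi => ?_⟩
    · rw [Subgroup.closure_le]
      rintro _ (⟨i, rfl⟩ | ⟨i, rfl⟩)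
      · exact hp.1 i
      · exact hp.2 i
    · rintro _ ⟨g, rfl⟩; exact h i hi g
  exact hle (Subgroup.mem_top g)

/-- The elements of the tori of the 4-chain link fix what the meridians fix. -/
theorem fix_fst {G : Type v} [Group G] {t : Box} {o n : Fin 4 → G} {X : Type u}
    [CompleteLinearOrder X] (ρ : G →* (X ≃o X)) {p : X}
    (hp : (∀ i, ρ (o i) p = p) ∧ ∀ i, ρ (n i) p = p) (i : Fin 4) :
    ρ (fst t o n i) p = p := by
  let H := (MulAction.stabilizer (X ≃o X) p).comap ρ
  have ho : ∀ i, o i ∈ H := hp.1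
  have hn : ∀ i, n i ∈ H := hp.2
  have hl : ∀ i, longitude o n i ∈ H := by
    intro i; fin_cases i
    · exact H.mul_mem (H.inv_mem (ho 1)) (H.inv_mem (hn 3))
    · exact H.mul_mem (H.inv_mem (ho 2)) (H.inv_mem (hn 0))
    · exact H.mul_mem (hn 3) (H.inv_mem (hn 1))
    · exact H.mul_mem (H.inv_mem (ho 0)) (ho 2)
  show fst t o n i ∈ H
  cases t
  · fin_cases i
    · exact ho 0
    · exact H.inv_mem (ho 1)
    · exact ho 2
    · exact H.inv_mem (ho 3)
  · fin_cases i
    · exact ho 0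
    · exact hl 1
    · exact ho 2
    · exact hl 3

theorem four_step {G : Type} [Group G] (t : Box) (o n : Fin 4 → G) (link : Chain4 o n)
    (r : Fin 4) (N : Fin 4 → Type) [∀ i, Group (N i)] (js : ∀ i, N i →* G) (k : Fin 4 → Kind)
    (x e : ∀ i, N i) (S : Set (Fin 4))
    (ih : ∀ i ∈ S, i ≠ r → Dir.{u} (N i) (pos (k i) (x i) (e i)))
    (glue : ∀ i ∈ S, i ≠ r → Both (js i '' pos (k i) (x i) (e i)) (fst t o n i)
      (snd t o n i)⁻¹)
    (solid : ∀ i ∉ S, i ≠ r → Filled t o n i)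
    (gen : Subgroup.closure (Set.range o ∪ Set.range n) ⊔
      ⨆ i ∈ {i | i ∈ S ∧ i ≠ r}, (js i).range = ⊤) :
    Dir.{u} G (pos .quadrant (fst t o n r) (snd t o n r)) := by
  have cap := fun i (hi : i ≠ r) => four_cap link N js k x e S i (fun h => ih i h hi)
    (fun h => glue i h hi) (fun h => solid i h hi)
  have all : ∀ (X : Type u) [CompleteLinearOrder X] (ρ : G →* (X ≃o X)) (p : X),
      ((∀ i, ρ (o i) p = p) ∧ ∀ i, ρ (n i) p = p) → ∀ g, ρ g p = p := by
    intro X _ ρ p hp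
    exact four_gen N js _ gen ρ hp fun i hi => (cap i hi.2 X ρ).2 hi.1 p (fix_fst ρ hp i)
  refine dir_of_scap (link.core.comm' t r) (fun X _ ρ p h1 h2 => ?_) (fun X _ ρ hs g p => ?_)
  · refine all X ρ p (act_open (link.map ρ) t r (fun i hi => (cap i hi X ρ).1) ?_ ?_)
    · rw [fst_map]; exact h1
    · rw [snd_map]; exact h2
  · refine all X ρ p (act_closed (link.map ρ) t (fun i => ?_) p) g
    by_cases hi : i = r
    · subst hi
      unfold Capd
      rw [fst_map, snd_map]
      exact ⟨hs.cap, fun _ _ => hs⟩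
    · exact (cap i hi X ρ).1

theorem Tree.dir {G : Type} [Group G] {k : Kind} {x e : G} (h : Tree G k x e) :
    Dir.{u} G (pos k x e) := by
  induction h with
  | @knot G _ μ l n h =>
    exact dir_quadrant (((Commute.refl μ).zpow_right n).mul_right h.comm) h.piece
  | @piece G _ K hK j N _ js k x e S hS glue solid gen ih =>
    exact piece_step K hK j N js k x e S ih glue solid gen
  | @chain G _ n hn o m c s link per s0 N _ js k x e S hS glue solid tw gen ih =>
    have node : Node.{u} G n o m c s := by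
      refine ⟨link, hn, per, fun X _ ρ i hi => ?_, fun X _ ρ p ho hm => ?_⟩
      · exact (chain_cap link N js k x e S i (fun h => ih i h hi) (fun h => glue i h hi)
          (fun h => solid i h hi) X ρ).1
      · refine chain_gen (c := c) (n := n) N js _ gen ρ ho hm fun i hi => ?_
        exact ((chain_cap link N js k x e S i (fun h => ih i h hi.2) (fun h => glue i h hi.2)
          (fun h => solid i h hi.2) X ρ).2 hi.1).2 p (ho _)
    refine dir_chain (node.tame ?_)
    have e1 : set0 n s true = s := by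
      funext i
      unfold set0
      split_ifs with h
      · obtain ⟨t, rfl⟩ := Nat.dvd_of_mod_eq_zero h
        have h2 : ∀ t, s (n * t) = true := by
          intro t
          induction t with
          | zero => simpa using s0
          | succ t ih =>
            rw [Nat.mul_succ, per]; exact ih
        exact (h2 t).symm
      · rfl
    rw [e1, tws_eq]
    exact tw
  | @four G _ t o n link r N _ js k x e S hS glue solid gen ih =>
    exact four_step t o n link r N js k x e S ih glue solid gen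

/-- The 4-chain link with all four tori filled. -/
theorem act_four {G : Type u} [Group G] {t : Box} {o n : Fin 4 → G} (link : Chain4 o n)
    (N : Fin 4 → Type) [∀ i, Group (N i)] (js : ∀ i, N i →* G) (k : Fin 4 → Kind)
    (x e : ∀ i, N i) (S : Set (Fin 4)) (hS : ∀ i ∈ S, Tree (N i) (k i) (x i) (e i))
    (glue : ∀ i ∈ S, Both (js i '' pos (k i) (x i) (e i)) (fst t o n i) (snd t o n i)⁻¹)
    (solid : ∀ i ∉ S, Filled t o n i)
    (gen : Subgroup.closure (Set.range o ∪ Set.range n) ⊔ ⨆ i ∈ S, (js i).range = ⊤)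
    {X : Type u} [CompleteLinearOrder X] (ρ : G →* (X ≃o X)) (g : G) (p : X) : ρ g p = p := by
  have cap := fun i => four_cap link N js k x e S i (fun h => (hS i h).dir.{u})
    (glue i) (solid i) X ρ
  have hp := act_closed (link.map ρ) t (fun i => (cap i).1) p
  exact four_gen N js _ gen ρ hp (fun i hi => (cap i).2 hi p (fix_fst ρ hp i)) g

end proof

/-- Let `G` be the fundamental group of a closed manifold which is obtained from the exterior of the
4-chain link (with the system `t` of distinguished intervals) by gluing to the torus of circle `i` a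
manifold of the class with group `N i` (if `i ∈ S`) or a solid torus (if `i ∉ S`), for `i = 0, 1, 2, 3`; or any
group which is generated by elements `o i`, `n i` and images of the groups `N i` with the corresponding
relations. Then `G` is not left-orderable, and all homomorphisms from `G` to left-orderable groups are
trivial. -/
theorem result (t : Box) (G : Type u) [Group G] (o n : Fin 4 → G) (N : Fin 4 → Type)
    [∀ i, Group (N i)] (js : ∀ i, N i →* G) (k : Fin 4 → Kind) (x e : ∀ i, N i)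
    (S : Set (Fin 4)) (link : Chain4 o n) (hS : ∀ i ∈ S, Tree (N i) (k i) (x i) (e i))
    (glue : ∀ i ∈ S, Both (js i '' pos (k i) (x i) (e i)) (fst t o n i) (snd t o n i)⁻¹)
    (solid : ∀ i ∉ S, Filled t o n i)
    (gen : Subgroup.closure (Set.range o ∪ Set.range n) ⊔ ⨆ i ∈ S, (js i).range = ⊤) :
    NoOrders G :=
  noOrders fun _ _ ρ g p => act_four link N js k x e S hS glue solid gen ρ g p

end Pool.Agent.Results.MP_9ae2f3_gt.FourChainPieces
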