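import Pool.Agent.L7h80.PC.Act
import Pool.Agent.L7h80.PC.Ker
import Pool.Agent.Results.MP_9ae2f3_gt.MixedTrees

set_option autoImplicit false

/-!
# Gluing to the lifts of the three circles of a pretzel surface in cyclic branched covers

Let `F` be the surface in the 3-sphere consisting of two discs joined by three bands (columns) with
`1`, `-1`, `1` half twists, and let `c 0`, `c 1`, `c 2` be circles around the three bands. The boundary
of `F` is the unknot `P(1, -1, 1)`, so its `n`-fold cyclic branched cover is the 3-sphere, and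
`c 0`, `c 1`, `c 2` lift to a link `L n` with `3 n` components in the 3-sphere. Surgery on `c j` that adds
`r j` full twists to the band `j` changes the boundary of `F` to the pretzel knot
`P(2 r 0 + 1, 2 r 1 - 1, 2 r 2 + 1)`; the `n`-fold cyclic branched cover of this knot is obtained from the
exterior of `L n` by gluing solid tori.

Here a solid torus or a manifold of the class `Tree` of the result `MixedTrees` (exteriors of
knots with Nie's property (D), Borromean, chain link and other pieces glued to each other) is glued to each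
of the `3 n` boundary tori, and the gluing maps are arbitrary subject to the following condition.
The slope `r = k / m` of the relation `g ^ m = x ^ k` between the meridian `g` and
the longitude `x` of a lift of `c j` is in the interval

  `(-1, 1]` for `j = 0`, `(-∞, -1]` for `j = 1`, `[0, ∞)` for `j = 2`

for a solid torus (the slopes of different lifts may be different), and all slopes outside the interior of this interval
are in the interior of the distinguished interval of the glued member of `Tree` (the condition of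
the gluing theorem of Hanselman, Rasmussen and Watson). The theorem: every homomorphism from the
fundamental group of the glued manifold to a left-orderable group is trivial.

If all solid tori are glued with the same slopes `a`, `-q`, `b` for `j = 0, 1, 2` then these manifolds are
the cyclic branched covers of the pretzel knots `P(2 a + 1, -(2 q + 1), 2 b + 1)`; the
starting result `PretzelTwoParameters` is the case `a = 1` with integers `q ≥ 1`, `b ≥ 0`. (The interval
`(-1, 1]` is optimal up to its end point `-1`: the double branched cover of `P(5, -3, 5)` and the `6`-fold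
cyclic branched cover of the trefoil `P(-3, -3, 1)` have left-orderable fundamental groups.)

Idea. Put `x i`, `v i`, `w i` for the longitudes of the lifts of `c 0, c 1, c 2` (they bound together:
`x i * v i * w i = 1`) and `g i`, `(q i)⁻¹`, `f i` for the meridians. With `A i = x i * g i * v i * q i`
and `C i = w i * f i * (g i)⁻¹` one has `A (i+1) = A i * w i` and
`C (i+1) = f i * (g i)⁻¹ * (x i)⁻¹`. Let the group act on a complete linear order. The caps imply that `g i`
moves a point at most as far as `x i` or its inverse, that `(v i)⁻¹ * q i` follows `v i` and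
that `f i` follows `w i`. If `A i y ≥ y` and `C i y ≥ y` with one strict inequality then there is
`p ≤ y` with `A (i+1) p ≥ p` and `C (i+1) p > C i y`, which contradicts periodicity. So there are three
types of points as in the starting result, and in the first type `w i` increases.
-/

universe u

namespace Pool.Agent.Results.MP_9ae2f3_gt.PretzelChains

open Pool.Agent.Results.MP_9ae2f3_gt.GluedKnotExteriors (NoOrders noOrders)
open Pool.Agent.Results.MP_9ae2f3_gt.MixedTrees (Kind pos Tree)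
open Pool.Agent.L7h76.MT (Dir Both)
open Pool.Agent.L7h80.PC

/-- One crossing of a vertical twist region: if the two strands, both oriented downwards, have
meridians `(x, y)` (left, right) above the crossing, then they have meridians `(y, y⁻¹ x y)`
below it.  The inverse is the crossing of the other handedness. -/
def crossing (G : Type*) [Group G] : Equiv.Perm (G × G) where
  toFun w := (w.2, w.2⁻¹ * w.1 * w.2)
  invFun w := (w.1 * w.2 * w.1⁻¹, w.1)
  left_inv w := by ext <;> simp [mul_assoc]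
  right_inv w := by ext <;> simp [mul_assoc]

/-- The free group on the meridians `Sum.inl j` of the arcs at the top and `Sum.inr j` of the
circles. -/
abbrev Free : Type := FreeGroup (Fin 3 ⊕ Fin 3)

/-- The meridian of the arc at the top of the diagram that joins the top right end of
column `j - 1` to the top left end of column `j`, oriented into column `j`. -/
def arc (j : Fin 3) : Free := FreeGroup.of (Sum.inl j)

/-- The meridian of the circle `c j`, which surrounds the two strands of column `j` above the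
crossing. -/
def circ (j : Fin 3) : Free := FreeGroup.of (Sum.inr j)

/-- The longitude of the circle `c j`: the product of the meridians of the two strands at the top of
column `j`, which are `arc j` and `(arc (j + 1))⁻¹`. -/
def lon (j : Fin 3) : Free := arc j * (arc (j + 1))⁻¹

/-- The numbers of crossings of the three columns. -/
def sign : Fin 3 → ℤ := ![1, -1, 1]

/-- The downward meridians of the two strands at the bottom of column `j`: they pass through a
disc bounded by the circle `c j` and then there is one crossing. -/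
def bottom (j : Fin 3) : Free × Free :=
  (crossing Free ^ sign j)
    ((circ j)⁻¹ * arc j * circ j, (circ j)⁻¹ * (arc (j + 1))⁻¹ * circ j)

/-- The bottom right end of column `j` is joined to the bottom left end of column `j + 1`. -/
def relator (j : Fin 3) : Free := (bottom j).2 * (bottom (j + 1)).1

/-- The relators of the group of the link `P(1, -1, 1) ∪ c 0 ∪ c 1 ∪ c 2` (the second family: the
meridian and the longitude of `c j` commute), and the `n`-th power of the meridian of
`P(1, -1, 1)`. -/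
def rels (n : ℕ) : Set Free :=
  Set.range relator ∪ Set.range (fun j => circ j * lon j * (circ j)⁻¹ * (lon j)⁻¹) ∪ {arc 0 ^ n}

/-- The quotient of the group of the link `P(1, -1, 1) ∪ c 0 ∪ c 1 ∪ c 2` by the `n`-th power of the
meridian of `P(1, -1, 1)`. -/
abbrev OrbifoldGroup (n : ℕ) : Type := PresentedGroup (rels n)

theorem bottom_zero : bottom 0 = ((circ 0)⁻¹ * (arc 1)⁻¹ * circ 0,
    ((circ 0)⁻¹ * (arc 1)⁻¹ * circ 0)⁻¹ * ((circ 0)⁻¹ * arc 0 * circ 0) *
      ((circ 0)⁻¹ * (arc 1)⁻¹ * circ 0)) := by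
  show (crossing Free ^ (1 : ℤ)) _ = _
  rw [zpow_one]; rfl

theorem bottom_one : bottom 1 = ((circ 1)⁻¹ * arc 1 * circ 1 *
    ((circ 1)⁻¹ * (arc 2)⁻¹ * circ 1) * ((circ 1)⁻¹ * arc 1 * circ 1)⁻¹,
      (circ 1)⁻¹ * arc 1 * circ 1) := by
  show (crossing Free ^ (-1 : ℤ)) _ = _
  rw [zpow_neg, zpow_one]; rfl

theorem bottom_two : bottom 2 = ((circ 2)⁻¹ * (arc 0)⁻¹ * circ 2,
    ((circ 2)⁻¹ * (arc 0)⁻¹ * circ 2)⁻¹ * ((circ 2)⁻¹ * arc 2 * circ 2) *
      ((circ 2)⁻¹ * (arc 0)⁻¹ * circ 2)) := by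
  show (crossing Free ^ (1 : ℤ)) _ = _
  rw [zpow_one]; rfl

/-- The relators have degree `0`. -/
theorem degree_rel (n : ℕ) : ∀ r ∈ rels n,
    FreeGroup.lift (Sum.elim (fun _ : Fin 3 => (Multiplicative.ofAdd 1 : Multiplicative (ZMod n)))
      fun _ : Fin 3 => 1) r = 1 := by
  rintro r ((⟨j, rfl⟩ | ⟨j, rfl⟩) | rfl)
  · unfold relator
    fin_cases j
    · show FreeGroup.lift _ ((bottom 0).2 * (bottom 1).1) = 1
      rw [bottom_zero, bottom_one]; simp [arc, circ]
    · show FreeGroup.lift _ ((bottom 1).2 * (bottom 2).1) = 1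
      rw [bottom_one, bottom_two]; simp [arc, circ]
    · show FreeGroup.lift _ ((bottom 2).2 * (bottom 0).1) = 1
      rw [bottom_two, bottom_zero]; simp [arc, circ]
  · simp [arc, circ, lon]
  · simp only [arc, map_pow, FreeGroup.lift_apply_of, Sum.elim_inl]
    rw [← ofAdd_nsmul]
    simp

/-- The homomorphism to `Z/n` that sends the meridians of `P(1, -1, 1)` to `1` and the meridians of
the circles to `0`. -/
def degree (n : ℕ) : OrbifoldGroup n →* Multiplicative (ZMod n) :=
  PresentedGroup.toGroup (degree_rel n)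

/-- The fundamental group of the exterior of the link `L n`, the preimage of the circles `c j` in the
`n`-fold cyclic branched cover of the unknot `P(1, -1, 1)`. -/
abbrev ExteriorGroup (n : ℕ) : Type := (degree n).ker

/-- The class of an element of the free group. -/
abbrev cls (n : ℕ) (r : Free) : OrbifoldGroup n := PresentedGroup.mk (rels n) r

theorem degree_arc (n : ℕ) (j : Fin 3) : degree n (cls n (arc j)) = Multiplicative.ofAdd 1 :=
  PresentedGroup.toGroup.of _

theorem degree_circ (n : ℕ) (j : Fin 3) : degree n (cls n (circ j)) = 1 :=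
  PresentedGroup.toGroup.of _

theorem degree_lon (n : ℕ) (j : Fin 3) : degree n (cls n (lon j)) = 1 := by
  show degree n (cls n (arc j * (arc (j + 1))⁻¹)) = 1
  rw [cls, map_mul, map_mul, map_inv, map_inv, degree_arc, degree_arc, mul_inv_cancel]

/-- The conjugate of an element of degree `0` by the `i`-th power of the meridian `arc 0`. -/
def conjugate {n : ℕ} (r : Free) (h : degree n (cls n r) = 1) (i : ZMod n) : ExteriorGroup n :=
  ⟨cls n (arc 0) ^ i.val * cls n r * (cls n (arc 0) ^ i.val)⁻¹, by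
    show degree n _ = 1
    rw [map_mul, map_mul, h, map_inv]; simp⟩

/-- The meridian of the lift number `t.2` of the circle `c t.1`. -/
def mer {n : ℕ} (t : Fin 3 × ZMod n) : ExteriorGroup n :=
  conjugate (circ t.1) (degree_circ n t.1) t.2

/-- The longitude of the lift number `t.2` of the circle `c t.1` (the lift of the longitude of
`c t.1`). -/
def longitude {n : ℕ} (t : Fin 3 × ZMod n) : ExteriorGroup n :=
  conjugate (lon t.1) (degree_lon n t.1) t.2

/-- `k / m`, `m > 0`, is in the interval `(-1, 1]`, `(-∞, -1]` or `[0, ∞)` for `j = 0, 1, 2`. -/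
def Slope (j : Fin 3) (m k : ℤ) : Prop :=
  match j with
  | 0 => -m < k ∧ k ≤ m
  | 1 => k ≤ -m
  | 2 => 0 ≤ k

/-- The elements for the endpoints of the interval of slopes of the torus `t`. -/
def ends {n : ℕ} (t : Fin 3 × ZMod n) : ExteriorGroup n × ExteriorGroup n :=
  match t.1 with
  | 0 => (longitude t * (mer t)⁻¹, longitude t * mer t)
  | 1 => (longitude t, (mer t * longitude t)⁻¹)
  | 2 => (longitude t, mer t)

section relations
variable {n : ℕ}

theorem rel0 : ((cls n (circ 0))⁻¹ * (cls n (arc 1))⁻¹ * cls n (circ 0))⁻¹ *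
    ((cls n (circ 0))⁻¹ * cls n (arc 0) * cls n (circ 0)) *
      ((cls n (circ 0))⁻¹ * (cls n (arc 1))⁻¹ * cls n (circ 0)) *
    ((cls n (circ 1))⁻¹ * cls n (arc 1) * cls n (circ 1) *
      ((cls n (circ 1))⁻¹ * (cls n (arc 2))⁻¹ * cls n (circ 1)) *
        ((cls n (circ 1))⁻¹ * cls n (arc 1) * cls n (circ 1))⁻¹) = 1 := by
  have h : cls n (relator 0) = 1 := PresentedGroup.one_of_mem (Or.inl (Or.inl ⟨0, rfl⟩))
  have h2 : relator 0 = (bottom 0).2 * (bottom 1).1 := rfl
  rw [h2, bottom_zero, bottom_one] at h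
  simpa only [cls, map_mul, map_inv] using h

theorem rel1 : (cls n (circ 1))⁻¹ * cls n (arc 1) * cls n (circ 1) *
    ((cls n (circ 2))⁻¹ * (cls n (arc 0))⁻¹ * cls n (circ 2)) = 1 := by
  have h : cls n (relator 1) = 1 := PresentedGroup.one_of_mem (Or.inl (Or.inl ⟨1, rfl⟩))
  have h2 : relator 1 = (bottom 1).2 * (bottom 2).1 := rfl
  rw [h2, bottom_two, bottom_one] at h
  simpa only [cls, map_mul, map_inv] using h

theorem comm_rel (j : Fin 3) : Commute (cls n (lon j)) (cls n (circ j)) := by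
  have h : cls n (circ j * lon j * (circ j)⁻¹ * (lon j)⁻¹) = 1 :=
    PresentedGroup.one_of_mem (Or.inl (Or.inr ⟨j, rfl⟩))
  simp only [cls, map_mul, map_inv] at h
  rw [mul_inv_eq_one, mul_inv_eq_iff_eq_mul] at h
  exact h.symm

theorem arc_pow : cls n (arc 0) ^ n = 1 := by
  have h : cls n (arc 0 ^ n) = 1 := PresentedGroup.one_of_mem (Or.inr rfl)
  rwa [cls, map_pow] at h

theorem cls_lon (j : Fin 3) : cls n (lon j) = cls n (arc j) * (cls n (arc (j + 1)))⁻¹ := by
  show cls n (arc j * (arc (j + 1))⁻¹) = _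
  simp only [cls, map_mul, map_inv]

theorem prod_lon : cls n (lon 0) * cls n (lon 1) * cls n (lon 2) = 1 := by
  rw [cls_lon, cls_lon, cls_lon]
  show cls n (arc 0) * (cls n (arc 1))⁻¹ * (cls n (arc 1) * (cls n (arc 2))⁻¹) *
    (cls n (arc 2) * (cls n (arc 0))⁻¹) = 1
  group

theorem aux_A {G : Type*} [Group G] {s a1 a2 g h X V W : G} (hX : X = s * a1⁻¹)
    (hV : V = a1 * a2⁻¹) (hW : W = a2 * s⁻¹) (hc : Commute V h)
    (R : (g⁻¹ * a1⁻¹ * g)⁻¹ * (g⁻¹ * s * g) * (g⁻¹ * a1⁻¹ * g) *
      (h⁻¹ * a1 * h * (h⁻¹ * a2⁻¹ * h) * (h⁻¹ * a1 * h)⁻¹) = 1) :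
    s * (X * g * V * h⁻¹) * s⁻¹ = X * g * V * h⁻¹ * W := by
  have e1 : g⁻¹ * a1 * s * a1⁻¹ * g * (h⁻¹ * a1 * a2⁻¹ * a1⁻¹ * h) = 1 := by
    rw [← R]; group
  have e4 : g⁻¹ * a1 * s * a1⁻¹ * g = (h⁻¹ * a1 * a2⁻¹ * a1⁻¹ * h)⁻¹ :=
    eq_inv_of_mul_eq_one_left e1
  have e2 : V * h⁻¹ = h⁻¹ * V := hc.inv_right.eq
  have e3 : X * g * V * h⁻¹ = X * g * (h⁻¹ * V) := by
    rw [mul_assoc, e2]
  have e5 : (X * g * (h⁻¹ * V))⁻¹ * s * (X * g * (h⁻¹ * V)) = a2 := by
    calc (X * g * (h⁻¹ * V))⁻¹ * s * (X * g * (h⁻¹ * V))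
        = V⁻¹ * h * (g⁻¹ * (X⁻¹ * s * X) * g) * (h⁻¹ * V) := by group
      _ = V⁻¹ * h * (g⁻¹ * a1 * s * a1⁻¹ * g) * (h⁻¹ * V) := by rw [hX]; group
      _ = a2 := by rw [e4, hV]; group
  rw [e3, hW, ← e5]
  group

theorem aux_B {G : Type*} [Group G] {s a1 h k X : G} (hX : X = s * a1⁻¹)
    (R : h⁻¹ * a1 * h * (k⁻¹ * s⁻¹ * k) = 1) :
    s * (h * k⁻¹) * s⁻¹ = X * h * k⁻¹ := by
  have e1 : h⁻¹ * a1 * h = k⁻¹ * s * k := by
    rw [mul_eq_one_iff_eq_inv] at R
    rw [R]; group
  have e2 : a1 = h * (k⁻¹ * s * k) * h⁻¹ := by rw [← e1]; group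
  rw [hX, e2]
  group

/-- The elements of the chain. -/
theorem relation_A : cls n (arc 0) * (cls n (lon 0) * cls n (circ 0) * cls n (lon 1) *
    (cls n (circ 1))⁻¹) * (cls n (arc 0))⁻¹ =
    cls n (lon 0) * cls n (circ 0) * cls n (lon 1) * (cls n (circ 1))⁻¹ * cls n (lon 2) :=
  aux_A (cls_lon 0) (cls_lon 1) (cls_lon 2) (comm_rel 1) rel0

theorem relation_B : cls n (arc 0) * (cls n (circ 1) * (cls n (circ 2))⁻¹) * (cls n (arc 0))⁻¹ =
    cls n (lon 0) * cls n (circ 1) * (cls n (circ 2))⁻¹ :=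
  aux_B (cls_lon 0) rel1

/-- The relations in the group of the exterior. -/
theorem crel (hn : 0 < n) {G : Type*} [Group G] (φ : ExteriorGroup n →* G) :
    CRel (fun i => φ (longitude (0, i))) (fun i => φ (longitude (1, i)))
      (fun i => φ (longitude (2, i))) (fun i => φ (mer (0, i))) (fun i => φ (mer (1, i))⁻¹)
      (fun i => φ (mer (2, i))) := by
  have hs := arc_pow (n := n)
  refine ⟨fun i => ?_, fun i => ?_, fun i => ?_, fun i => ?_, fun i => ?_, fun i => ?_⟩
  · rw [← map_mul, ← map_mul, ← map_one φ]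
    congr 1
    apply Subtype.ext
    show cj _ (cls n (lon 0)) i * cj _ (cls n (lon 1)) i * cj _ (cls n (lon 2)) i = 1
    rw [← cj_mul, ← cj_mul, prod_lon]
    unfold cj; group
  · show φ _ * φ _ = φ _ * φ _
    rw [← map_mul, ← map_mul]
    congr 1
    apply Subtype.ext
    show cj _ (cls n (lon 0)) i * cj _ (cls n (circ 0)) i = cj _ (cls n (circ 0)) i *
      cj _ (cls n (lon 0)) i
    rw [← cj_mul, ← cj_mul, (comm_rel 0).eq]
  · show φ _ * φ _ = φ _ * φ _
    rw [← map_mul, ← map_mul]
    congr 1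
    apply Subtype.ext
    show cj _ (cls n (lon 1)) i * (cj _ (cls n (circ 1)) i)⁻¹ = (cj _ (cls n (circ 1)) i)⁻¹ *
      cj _ (cls n (lon 1)) i
    rw [← cj_inv, ← cj_mul, ← cj_mul, (comm_rel 1).inv_right.eq]
  · show φ _ * φ _ = φ _ * φ _
    rw [← map_mul, ← map_mul]
    congr 1
    apply Subtype.ext
    show cj _ (cls n (lon 2)) i * cj _ (cls n (circ 2)) i = cj _ (cls n (circ 2)) i *
      cj _ (cls n (lon 2)) i
    rw [← cj_mul, ← cj_mul, (comm_rel 2).eq]
  · simp only [← map_mul]
    congr 1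
    apply Subtype.ext
    show cj _ (cls n (lon 0)) (i + 1) * cj _ (cls n (circ 0)) (i + 1) *
      cj _ (cls n (lon 1)) (i + 1) * (cj _ (cls n (circ 1)) (i + 1))⁻¹ =
      cj _ (cls n (lon 0)) i * cj _ (cls n (circ 0)) i *
      cj _ (cls n (lon 1)) i * (cj _ (cls n (circ 1)) i)⁻¹ * cj _ (cls n (lon 2)) i
    simp only [← cj_inv, ← cj_mul]
    rw [cj_shift hn hs, relation_A]
  · simp only [← map_mul, ← map_inv, inv_inv]
    congr 1
    apply Subtype.ext
    show cj _ (cls n (circ 1)) (i + 1) * (cj _ (cls n (circ 2)) (i + 1))⁻¹ =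
      cj _ (cls n (lon 0)) i * cj _ (cls n (circ 1)) i * (cj _ (cls n (circ 2)) i)⁻¹
    simp only [← cj_inv, ← cj_mul]
    rw [cj_shift hn hs, relation_B]

/-- The group of the exterior is generated by the meridians and the longitudes. -/
theorem generated (hn : 0 < n) (K : Subgroup (ExteriorGroup n))
    (hm : ∀ t, mer t ∈ K) (hl : ∀ t, longitude t ∈ K) : K = ⊤ := by
  have hs := arc_pow (n := n)
  rw [eq_top_iff]
  rintro z -
  set Y : Fin 3 ⊕ Fin 3 → OrbifoldGroup n := Sum.elim (fun j => cls n (lon j))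
    (fun j => cls n (circ j)) with hY
  have h1 : z.1 ∈ CN n (cls n (arc 0)) Y := by
    refine ker_le hn hs (fun K' k0 kY => ?_) (degree n) (degree_arc n 0) ?_ z.2
    · have ka : ∀ j, cls n (arc j) ∈ K' := by
        have k1 : cls n (arc 1) ∈ K' := by
          have e : cls n (arc 1) = (cls n (lon 0))⁻¹ * cls n (arc 0) := by
            rw [cls_lon]; show _ = (cls n (arc 0) * (cls n (arc 1))⁻¹)⁻¹ * cls n (arc 0)
            group
          rw [e]; exact mul_mem (inv_mem (kY (Sum.inl 0))) k0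
        have k2 : cls n (arc 2) ∈ K' := by
          have e : cls n (arc 2) = cls n (lon 2) * cls n (arc 0) := by
            rw [cls_lon]; show _ = cls n (arc 2) * (cls n (arc 0))⁻¹ * cls n (arc 0)
            group
          rw [e]; exact mul_mem (kY (Sum.inl 2)) k0
        intro j
        fin_cases j
        · exact k0
        · exact k1
        · exact k2
      rw [eq_top_iff, ← PresentedGroup.closure_range_of, Subgroup.closure_le]
      rintro _ ⟨j | j, rfl⟩
      · exact ka j
      · exact kY (Sum.inr j)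
    · rintro (j | j)
      · exact degree_lon n j
      · exact degree_circ n j
  have h2 : CN n (cls n (arc 0)) Y ≤ K.map (degree n).ker.subtype := by
    unfold CN
    rw [Subgroup.closure_le]
    rintro _ ⟨⟨j | j, i⟩, rfl⟩
    · exact ⟨longitude (j, i), hl _, rfl⟩
    · exact ⟨mer (j, i), hm _, rfl⟩
  obtain ⟨z', hz', hzz⟩ := h2 h1
  have : z' = z := Subtype.ext hzz
  rw [← this]; exact hz'

end relations

section caps
variable {n : ℕ} {G : Type u} [Group G] {Ω : Type u} [CompleteLinearOrder Ω]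

/-- What the cap of torus `t` has to satisfy. -/
def CapOK (φ : ExteriorGroup n →* G) (ρ : G →* (Ω ≃o Ω)) (t : Fin 3 × ZMod n) : Prop :=
  match t.1 with
  | 0 => Same (ρ (φ (longitude t))) (ρ (φ (mer t)))
  | 1 => Pool.Agent.TH821.Hex.Follows (ρ (φ (longitude t))) (ρ ((φ (longitude t))⁻¹ * φ (mer t)⁻¹))
  | 2 => Pool.Agent.TH821.Hex.Follows (ρ (φ (longitude t))) (ρ (φ (mer t)))

theorem commute_t (t : Fin 3 × ZMod n) : Commute (longitude t) (mer t) := by
  show _ * _ = _ * _
  apply Subtype.ext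
  show cj _ (cls n (lon t.1)) t.2 * cj _ (cls n (circ t.1)) t.2 = cj _ (cls n (circ t.1)) t.2 *
      cj _ (cls n (lon t.1)) t.2
  rw [← cj_mul, ← cj_mul, (comm_rel t.1).eq]

theorem cap_solid (φ : ExteriorGroup n →* G) (ρ : G →* (Ω ≃o Ω)) (t : Fin 3 × ZMod n) {m k : ℤ}
    (hm : 0 < m) (hs : Slope t.1 m k) (hr : φ (mer t) ^ m = φ (longitude t) ^ k) :
    CapOK φ ρ t := by
  have hc : Commute (ρ (φ (longitude t))) (ρ (φ (mer t))) := ((commute_t t).map φ).map ρ
  have hr' : ρ (φ (mer t)) ^ m = ρ (φ (longitude t)) ^ k := by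
    have := congrArg ρ hr
    rwa [map_zpow, map_zpow] at this
  obtain ⟨j, i⟩ := t
  fin_cases j
  · exact same_solid hc hs.1 hs.2 hr'
  · have hk : k ≤ -m := hs
    show Pool.Agent.TH821.Hex.Follows (ρ (φ (longitude (1, i))))
      (ρ ((φ (longitude (1, i)))⁻¹ * φ (mer (1, i))⁻¹))
    obtain ⟨a, ha⟩ : ∃ a : ℕ, m = a := ⟨m.toNat, by omega⟩
    obtain ⟨b, hb⟩ : ∃ b : ℕ, -k - m = b := ⟨(-k - m).toNat, by omega⟩
    have e0 : ρ ((φ (longitude (1, i)))⁻¹ * φ (mer (1, i))⁻¹) =
        (ρ (φ (longitude (1, i))))⁻¹ * (ρ (φ (mer (1, i))))⁻¹ := by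
      rw [map_mul, map_inv, map_inv, map_inv]
    rw [e0]
    have hc1 : Commute (ρ (φ (longitude (1, i))))⁻¹ (ρ (φ (mer (1, i))))⁻¹ := hc.inv_inv
    have h3 : Commute ((ρ (φ (longitude (1, i))))⁻¹ * (ρ (φ (mer (1, i))))⁻¹)
        (ρ (φ (longitude (1, i)))) :=
      ((Commute.refl _).inv_left).mul_left (hc.symm.inv_left)
    obtain ⟨c1, c2, c3⟩ := follows_solid (m := a) (k := b) h3 (by omega) (by
      rw [hc1.mul_pow, ← zpow_natCast, ← zpow_natCast, ← zpow_natCast, ← ha, ← hb, inv_zpow,
        inv_zpow]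
      have hr2 : ρ (φ (mer (1, i))) ^ m = ρ (φ (longitude (1, i))) ^ k := hr'
      rw [hr2, ← zpow_neg, ← zpow_neg, ← zpow_add]
      congr 1; ring)
    exact ⟨c1, c2, c3⟩
  · have hk : 0 ≤ k := hs
    obtain ⟨a, ha⟩ : ∃ a : ℕ, m = a := ⟨m.toNat, by omega⟩
    obtain ⟨b, hb⟩ : ∃ b : ℕ, k = b := ⟨k.toNat, by omega⟩
    rw [ha, hb, zpow_natCast, zpow_natCast] at hr'
    obtain ⟨c1, c2, c3⟩ := follows_solid (m := a) (k := b) hc.symm (by omega) hr'
    exact ⟨c1, c2, c3⟩

theorem cap_glued {N : Type} [Group N] {Q : Set N} (hd : Dir.{u} N Q) (js : N →* G)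
    (φ : ExteriorGroup n →* G) (ρ : G →* (Ω ≃o Ω)) (t : Fin 3 × ZMod n)
    (hb : Both (js '' Q) (φ (ends t).1) (φ (ends t).2)) : CapOK φ ρ t := by
  have hc : Commute (ρ (φ (longitude t))) (ρ (φ (mer t))) := ((commute_t t).map φ).map ρ
  have hb' : Both (js '' Q) (φ (ends t).2) (φ (ends t).1) := by
    rcases hb with ⟨h1, h2⟩ | ⟨h1, h2⟩
    · exact Or.inl ⟨h2, h1⟩
    · exact Or.inr ⟨h2, h1⟩
  have up := fun p => hd.both_up js ρ hb (p := p)
  have dn := fun p => hd.both_dn js ρ hb (p := p)
  have fx := fun p => hd.both_fix' js ρ hb (p := p)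
  have fx' := fun p => hd.both_fix' js ρ hb' (p := p)
  have fol : (∀ v, v ≤ ρ (φ (ends t).1) v → v ≤ ρ (φ (ends t).2) v) ∧
      (∀ v, ρ (φ (ends t).1) v ≤ v → ρ (φ (ends t).2) v ≤ v) := by
    constructor
    · intro v hv
      rcases hv.lt_or_eq with h | h
      · exact (up v h).le
      · exact (fx v h.symm).ge
    · intro v hv
      rcases hv.lt_or_eq with h | h
      · exact (dn v h).le
      · exact (fx v h).le
  obtain ⟨j, i⟩ := t
  fin_cases j
  · have e1 : ρ (φ (ends ((0 : Fin 3), i)).1) =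
        ρ (φ (longitude (0, i))) * (ρ (φ (mer (0, i))))⁻¹ := by
      show ρ (φ (longitude (0, i) * (mer (0, i))⁻¹)) = _
      rw [map_mul, map_mul, map_inv, map_inv]
    have e2 : ρ (φ (ends ((0 : Fin 3), i)).2) =
        ρ (φ (longitude (0, i))) * ρ (φ (mer (0, i))) := by
      show ρ (φ (longitude (0, i) * mer (0, i))) = _
      rw [map_mul, map_mul]
    have fol' : (∀ v, v ≤ (ρ (φ (longitude (0, i))) * (ρ (φ (mer (0, i))))⁻¹) v →
        v ≤ (ρ (φ (longitude (0, i))) * ρ (φ (mer (0, i)))) v) ∧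
        (∀ v, (ρ (φ (longitude (0, i))) * (ρ (φ (mer (0, i))))⁻¹) v ≤ v →
        (ρ (φ (longitude (0, i))) * ρ (φ (mer (0, i)))) v ≤ v) := by
      rw [← e1, ← e2]; exact fol
    refine ⟨hc, fun v => ?_, fun v hv => ?_⟩
    · rcases le_total v ((ρ (φ (longitude (0, i))) * (ρ (φ (mer (0, i))))⁻¹) v) with h | h
      · exact Or.inl ⟨h, fol'.1 v h⟩
      · exact Or.inr ⟨h, fol'.2 v h⟩
    · have h1 := fx' v (by
        show ρ (φ (ends ((0 : Fin 3), i)).2) v = v
        rw [e2]; exact hv)
      have h2 : ρ (φ (ends ((0 : Fin 3), i)).1) v = v := h1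
      rwa [e1] at h2
  · have e2 : φ (mer ((1 : Fin 3), i) * longitude (1, i))⁻¹ =
        (φ (longitude (1, i)))⁻¹ * φ (mer (1, i))⁻¹ := by
      rw [mul_inv_rev, map_mul, map_inv]
    have h2 := fol
    have e3 : (ends ((1 : Fin 3), i)).2 = (mer ((1 : Fin 3), i) * longitude (1, i))⁻¹ := rfl
    have e4 : (ends ((1 : Fin 3), i)).1 = longitude (1, i) := rfl
    have h3 : (∀ v, v ≤ ρ (φ (longitude ((1 : Fin 3), i))) v →
        v ≤ ρ ((φ (longitude ((1 : Fin 3), i)))⁻¹ * φ (mer ((1 : Fin 3), i))⁻¹) v) ∧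
      (∀ v, ρ (φ (longitude ((1 : Fin 3), i))) v ≤ v →
        ρ ((φ (longitude ((1 : Fin 3), i)))⁻¹ * φ (mer ((1 : Fin 3), i))⁻¹) v ≤ v) := by
      rw [← e2]; exact h2
    refine ⟨fun v => ?_, h3.1, h3.2⟩
    have hc2 : Commute (ρ (φ (longitude ((1 : Fin 3), i))))
        (ρ ((φ (longitude ((1 : Fin 3), i)))⁻¹ * φ (mer ((1 : Fin 3), i))⁻¹)) := by
      rw [map_mul, map_inv, map_inv, map_inv]
      exact ((Commute.refl _).inv_right).mul_right hc.inv_right
    exact congrArg (fun a => a v) hc2.eq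
  · refine ⟨fun v => ?_, fol.1, fol.2⟩
    rw [← RelIso.mul_apply, hc.eq, RelIso.mul_apply]

end caps

/-- **Gluing to the lifts of the three circles of a pretzel surface.** -/
theorem result {n : ℕ} (hn : 0 < n) (G : Type u) [Group G] (φ : ExteriorGroup n →* G)
    (N : Fin 3 × ZMod n → Type) [∀ t, Group (N t)] (js : ∀ t, N t →* G)
    (k : Fin 3 × ZMod n → Kind) (x e : ∀ t, N t) (S : Set (Fin 3 × ZMod n))
    (tree : ∀ t ∈ S, Tree (N t) (k t) (x t) (e t))
    (glue : ∀ t ∈ S, Both (js t '' pos (k t) (x t) (e t)) (φ (ends t).1) (φ (ends t).2))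
    (solid : ∀ t ∉ S, ∃ m k : ℤ, 0 < m ∧ Slope t.1 m k ∧ φ (mer t) ^ m = φ (longitude t) ^ k)
    (gen : φ.range ⊔ ⨆ t ∈ S, (js t).range = ⊤) : NoOrders G := by
  refine noOrders fun Ω _ ρ z p => ?_
  have cap : ∀ t, CapOK φ ρ t := by
    intro t
    by_cases ht : t ∈ S
    · exact cap_glued (tree t ht).inv.dir (js t) φ ρ t (glue t ht)
    · obtain ⟨m, l, hm, hs, hr⟩ := solid t ht
      exact cap_solid φ ρ t hm hs hr
  have fixed := fun i => (crel hn φ).fixed hn ρ (fun i => cap (0, i)) (fun i => cap (1, i))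
    (fun i => cap (2, i)) i p
  have inv_fix : ∀ a : G, ρ a⁻¹ p = p → ρ a p = p := by
    intro a ha
    rw [map_inv] at ha
    exact ((OrderIso.symm_apply_eq (ρ a)).mp ha).symm
  have mul_fix : ∀ a b : G, ρ a p = p → ρ b p = p → ρ (a * b) p = p := by
    intro a b ha hb
    rw [map_mul, RelIso.mul_apply, hb, ha]
  have hl : ∀ t, ρ (φ (longitude t)) p = p := by
    rintro ⟨j, i⟩
    fin_cases j
    · exact (fixed i).1
    · exact (fixed i).2.1
    · have h := (crel hn φ).prod i
      have h2 : φ (longitude ((2 : Fin 3), i)) =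
          (φ (longitude ((0 : Fin 3), i)) * φ (longitude ((1 : Fin 3), i)))⁻¹ :=
        eq_inv_of_mul_eq_one_right h
      show ρ (φ (longitude ((2 : Fin 3), i))) p = p
      rw [h2]
      apply inv_fix
      rw [inv_inv]
      exact mul_fix _ _ (fixed i).1 (fixed i).2.1
  have hm : ∀ t, ρ (φ (mer t)) p = p := by
    rintro ⟨j, i⟩
    fin_cases j
    · exact (fixed i).2.2.1
    · have h := (fixed i).2.2.2.1
      apply inv_fix
      rw [← map_inv]; exact h
    · exact (fixed i).2.2.2.2
  have hφ : ∀ z, ρ (φ z) p = p := by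
    intro z
    have h1 := generated hn ((MulAction.stabilizer (Ω ≃o Ω) p).comap (ρ.comp φ)) hm hl
    have h2 : z ∈ (MulAction.stabilizer (Ω ≃o Ω) p).comap (ρ.comp φ) := by
      rw [h1]; exact Subgroup.mem_top z
    exact h2
  have hle : (⊤ : Subgroup G) ≤ (MulAction.stabilizer (Ω ≃o Ω) p).comap ρ := by
    rw [← gen, sup_le_iff]
    refine ⟨?_, iSup₂_le fun t ht => ?_⟩
    · rintro _ ⟨z, rfl⟩; exact hφ z
    · rintro _ ⟨z, rfl⟩
      exact (tree t ht).inv.dir.both_fix (js t) ρ (glue t ht) (hφ _) z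
  exact hle (Subgroup.mem_top z)

end Pool.Agent.Results.MP_9ae2f3_gt.PretzelChains
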